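import Pool.Agent.H537.FG.Par

/-! Choice of the parameters, continued. -/

set_option autoImplicit false
set_option maxHeartbeats 4000000

open Filter Topology

namespace Pool.Agent.H537.FT

open Pool.Agent.H537.FG

/-- the bound up to which the prime factors are controlled -/
noncomputable def SF (B : ℝ) (L : ℝ) : ℕ := ⌊L ^ (B + 2)⌋₊

theorem log_sq_le (b : ℝ) (hb : 0 < b) (C : ℝ) (hC : 0 < C) :
    ∀ᶠ L : ℝ in atTop, C * (1 + Real.log L) ^ 2 ≤ L ^ b := by
  have h1 := (Real.isLittleO_pow_log_id_atTop (n := 2)).bound (c := b ^ 2 / (4 * C)) (by positivity)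
  have h2 : Tendsto (fun L : ℝ => L ^ b) atTop atTop := tendsto_rpow_atTop hb
  filter_upwards [h2.eventually h1, Real.tendsto_log_atTop.eventually_ge_atTop 1,
    eventually_gt_atTop (0 : ℝ)] with L h3 h4 h5
  have h6 : 0 < L ^ b := Real.rpow_pos_of_pos h5 _
  rw [id, Real.norm_of_nonneg h6.le, Real.norm_of_nonneg (by positivity), Real.log_rpow h5] at h3
  have h7 : (1 + Real.log L) ^ 2 ≤ 4 * Real.log L ^ 2 := by nlinarith
  have h8 : (4 * C) * (b * Real.log L) ^ 2 ≤ b ^ 2 * L ^ b := by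
    calc (4 * C) * (b * Real.log L) ^ 2 ≤ (4 * C) * (b ^ 2 / (4 * C) * L ^ b) :=
          mul_le_mul_of_nonneg_left h3 (by positivity)
      _ = b ^ 2 * L ^ b := by field_simp
  have h9 : b ^ 2 * (4 * C * Real.log L ^ 2) ≤ b ^ 2 * L ^ b := by
    calc b ^ 2 * (4 * C * Real.log L ^ 2) = (4 * C) * (b * Real.log L) ^ 2 := by ring
      _ ≤ _ := h8
  have h10 := le_of_mul_le_mul_left h9 (by positivity)
  calc C * (1 + Real.log L) ^ 2 ≤ C * (4 * Real.log L ^ 2) := mul_le_mul_of_nonneg_left h7 hC.le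
    _ = 4 * C * Real.log L ^ 2 := by ring
    _ ≤ _ := h10

theorem parL2 (B : ℝ) (hB : 0 < B) (K : ℕ) (hK : 2 ≤ K) (k : ℝ) (hk : 0 ≤ k) :
    ∀ᶠ L : ℝ in atTop, 1 < wF B K L → Real.log (wF B K L) ≤ Real.log (zF B K L) →
      (k + 1) * (2 + Real.log (SF B L)) ≤ zF B K L / Real.log (wF B K L) := by
  have hK0 : (0 : ℝ) < K := by
    have : 0 < K := by omega
    exact_mod_cast this
  have hb : 0 < B / K := by positivity
  filter_upwards [log_sq_le (B / K) hb (2 * (k + 1) * (B + 2) * (B / K + 1)) (by positivity),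
    (tendsto_rpow_atTop hb).eventually_ge_atTop 4, eventually_ge_atTop (2 : ℝ)] with L h1 h2 h3
  intro hw1 hwz
  have hL0 : 0 < L := by linarith
  have hl0 : 0 < Real.log L := Real.log_pos (by linarith)
  have hw0 : (0 : ℝ) < Real.log (wF B K L) := Real.log_pos (by exact_mod_cast hw1)
  have hzZ : (zF B K L : ℝ) ≤ L ^ (B / K) := Nat.floor_le (by positivity)
  have hzZ' : L ^ (B / K) < (zF B K L : ℝ) + 1 := Nat.lt_floor_add_one _
  have hz0 : (0 : ℝ) < zF B K L := by linarith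
  have hlz : Real.log (zF B K L) ≤ B / K * Real.log L := by
    rw [← Real.log_rpow hL0]
    exact Real.log_le_log hz0 hzZ
  have hS : Real.log (SF B L) ≤ (B + 2) * Real.log L := by
    have hS1 : (SF B L : ℝ) ≤ L ^ (B + 2) := Nat.floor_le (by positivity)
    rcases Nat.eq_zero_or_pos (SF B L) with h | h
    · rw [h]
      simp only [Nat.cast_zero, Real.log_zero]
      positivity
    · rw [← Real.log_rpow hL0]
      exact Real.log_le_log (by exact_mod_cast h) hS1
  rw [le_div_iff₀ hw0]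
  have e1 : (k + 1) * (2 + Real.log (SF B L)) ≤ (k + 1) * ((B + 2) * (1 + Real.log L)) := by
    apply mul_le_mul_of_nonneg_left _ (by positivity)
    linarith
  have e2 : Real.log (wF B K L) ≤ (B / K + 1) * (1 + Real.log L) := by
    have : 0 ≤ (B / K) := hb.le
    nlinarith
  have e3 : (k + 1) * (2 + Real.log (SF B L)) * Real.log (wF B K L) ≤
      ((k + 1) * ((B + 2) * (1 + Real.log L))) * ((B / K + 1) * (1 + Real.log L)) :=
    mul_le_mul e1 e2 hw0.le (by positivity)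
  refine e3.trans ?_
  have e4 : 2 * (((k + 1) * ((B + 2) * (1 + Real.log L))) * ((B / K + 1) * (1 + Real.log L))) ≤
      L ^ (B / K) := by
    refine le_trans (le_of_eq ?_) h1
    ring
  linarith

theorem parX2 (B : ℝ) (hB : 0 < B) (K : ℕ) (hK : 2 ≤ K) (hBK : B < K) (κ τ CE CA Cg η : ℝ) (hκ : 0 < κ)
    (hτ : 0 < τ) (hCE : 0 < CE) (hCA : 0 < CA) (hCg : 0 < Cg) (hη : 0 < η) (S0 : ℕ) :
    ∀ᶠ N : ℕ in atTop, 1 ≤ ⌊(N : ℝ) / Real.log N ^ B⌋₊ ∧
      ((SF B (Real.log N) : ℝ) + 1) * (4 : ℝ) ^ (zF B K (Real.log N)) ≤ (N : ℝ) ^ κ ∧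
      Real.exp (CE * zF B K (Real.log N)) ≤ τ * ⌊(N : ℝ) / Real.log N ^ B⌋₊ ∧
      (N : ℝ) / Real.log N ^ (B + 1) ≤ ⌊(N : ℝ) / Real.log N ^ B⌋₊ ∧
      1 ≤ SF B (Real.log N) ∧
      CA * Real.log N ≤ (⌊(N : ℝ) / Real.log N ^ B⌋₊ : ℝ) / 8 ∧
      CA * Real.log N / SF B (Real.log N) ≤ 1 / 4 ∧
      Cg * (1 + Real.log ((2 * ⌊(N : ℝ) / Real.log N ^ B⌋₊ : ℕ) : ℝ)) *
        (CA * Real.log N / SF B (Real.log N)) ≤ η / 16 ∧
      ∀ X a : ℕ, (N : ℝ) / 2 ≤ X → X ≤ N →
        (a : ℝ) ≤ ((SF B (Real.log N) : ℝ) + 1) * 4 ^ (zF B K (Real.log N)) →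
        a ≤ ⌊(N : ℝ) / Real.log N ^ B⌋₊ ∧ (a : ℝ) ≤ τ * X ∧
        S0 ≤ (X - a) / ⌊(N : ℝ) / Real.log N ^ B⌋₊ ∧
        (((X - a) / ⌊(N : ℝ) / Real.log N ^ B⌋₊ : ℕ) : ℝ) ≤ Real.log N ^ B + 1 ∧
        (X - a) / ⌊(N : ℝ) / Real.log N ^ B⌋₊ ≤ 2 * ⌊(N : ℝ) / Real.log N ^ B⌋₊ ∧
        (((X - a) / ⌊(N : ℝ) / Real.log N ^ B⌋₊ : ℕ) : ℝ) ≤ Real.log N ^ (B + 1) ∧
        Real.log N ^ B ≤ 6 * (((X - a) / ⌊(N : ℝ) / Real.log N ^ B⌋₊ : ℕ) : ℝ) ∧
        (X - a) / ⌊(N : ℝ) / Real.log N ^ B⌋₊ ≤ SF B (Real.log N) := by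
  have hK0 : (0 : ℝ) < K := by
    have : 0 < K := by omega
    exact_mod_cast this
  have hb : B / K < 1 := by
    rw [div_lt_one hK0]
    exact hBK
  set μ : ℝ := min κ (1 / 4) with hμ
  have hμ0 : 0 < μ := lt_min hκ (by norm_num)
  have hlogX : Tendsto (fun X : ℕ => Real.log (X : ℝ)) atTop atTop :=
    Real.tendsto_log_atTop.comp tendsto_natCast_atTop_atTop
  have t1 : ∀ᶠ L : ℝ in atTop, L ^ (B / K) ≤ min (μ / 8) (1 / (4 * CE)) * L :=
    small_pow _ hb _ (lt_min (by positivity) (by positivity))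
  have t2 : ∀ᶠ L : ℝ in atTop, Real.log L ≤ min (1 / (4 * B)) (μ / (4 * (B + 2))) * L := by
    have h1 := Real.isLittleO_log_id_atTop.bound (c := min (1 / (4 * B)) (μ / (4 * (B + 2))))
      (lt_min (by positivity) (by positivity))
    filter_upwards [h1, eventually_ge_atTop (1 : ℝ)] with L h2 h3
    rw [id, Real.norm_of_nonneg (Real.log_nonneg h3), Real.norm_of_nonneg (by linarith)] at h2
    exact h2
  have t3 : Tendsto (fun L : ℝ => L ^ B) atTop atTop := tendsto_rpow_atTop hB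
  have t4 : Tendsto (fun L : ℝ => Real.exp (L / 4)) atTop atTop :=
    Real.tendsto_exp_atTop.comp (tendsto_id.atTop_div_const (by norm_num))
  have key : ∀ᶠ L : ℝ in atTop, L ^ (B / K) ≤ min (μ / 8) (1 / (4 * CE)) * L ∧
      Real.log L ≤ min (1 / (4 * B)) (μ / (4 * (B + 2))) * L ∧
      6 * (S0 : ℝ) + 12 + 16 * (6 * Cg * CA) / η ≤ L ^ B ∧
      8 / τ + 8 + 32 * CA ≤ Real.exp (L / 4) ∧
      4 / μ + 8 * CA ≤ L ∧ 2 ≤ L := by
    filter_upwards [t1, t2, t3.eventually_ge_atTop (6 * (S0 : ℝ) + 12 + 16 * (6 * Cg * CA) / η),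
      t4.eventually_ge_atTop (8 / τ + 8 + 32 * CA), eventually_ge_atTop (4 / μ + 8 * CA),
      eventually_ge_atTop (2 : ℝ)]
      with L h1 h2 h3 h4 h5 h6
    exact ⟨h1, h2, h3, h4, h5, h6⟩
  filter_upwards [hlogX.eventually key, eventually_ge_atTop 1] with N hN hN1
  obtain ⟨h1, h2, h3, h4, h5, h6⟩ := hN
  set L := Real.log (N : ℝ) with hL
  have hX0 : (0 : ℝ) < N := by exact_mod_cast hN1
  have hL0 : 0 < L := by linarith
  set x := Real.exp (L / 4) with hx
  have hp1 : 0 < 8 / τ := by positivity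
  have hp2 : 0 < 4 / μ := by positivity
  have hp3 : 0 < 16 * (6 * Cg * CA) / η := by positivity
  have hx8 : 8 ≤ x := by linarith
  have hxτ : 8 / τ ≤ x := by linarith
  have hxA : 32 * CA ≤ x := by linarith
  have hx0 : 0 < x := by linarith
  have hX4 : (N : ℝ) = x ^ 4 := by
    rw [hx, ← Real.exp_nat_mul]
    push_cast
    rw [show 4 * (L / 4) = L by ring, hL, Real.exp_log hX0]
  have hS00 : (0 : ℝ) ≤ S0 := Nat.cast_nonneg _
  have hLB0 : 0 < L ^ B := Real.rpow_pos_of_pos hL0 _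
  have hLB12 : 12 ≤ L ^ B := by linarith
  have h2a : Real.log L ≤ 1 / (4 * B) * L := h2.trans (mul_le_mul_of_nonneg_right (min_le_left _ _) hL0.le)
  have h2b : Real.log L ≤ μ / (4 * (B + 2)) * L :=
    h2.trans (mul_le_mul_of_nonneg_right (min_le_right _ _) hL0.le)
  have hLBx : L ^ B ≤ x := by
    rw [hx, ← Real.log_le_iff_le_exp hLB0, Real.log_rpow hL0]
    calc B * Real.log L ≤ B * (1 / (4 * B) * L) := mul_le_mul_of_nonneg_left h2a hB.le
      _ = L / 4 := by field_simp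
  have hz : (zF B K L : ℝ) ≤ L ^ (B / K) := Nat.floor_le (by positivity)
  have hz1 : (zF B K L : ℝ) ≤ μ / 8 * L :=
    hz.trans (h1.trans (mul_le_mul_of_nonneg_right (min_le_left _ _) hL0.le))
  have hz2 : CE * (zF B K L : ℝ) ≤ L / 4 := by
    have e1 : (zF B K L : ℝ) ≤ 1 / (4 * CE) * L :=
      hz.trans (h1.trans (mul_le_mul_of_nonneg_right (min_le_right _ _) hL0.le))
    calc CE * (zF B K L : ℝ) ≤ CE * (1 / (4 * CE) * L) := mul_le_mul_of_nonneg_left e1 hCE.le
      _ = L / 4 := by field_simp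
  have hlog4 : Real.log 4 ≤ 2 := by
    have := Real.log_two_lt_d9
    have h4 : Real.log 4 = 2 * Real.log 2 := by
      rw [show (4 : ℝ) = 2 ^ 2 by norm_num, Real.log_pow]
      push_cast
      ring
    rw [h4]
    linarith
  -- the bound `S`
  have hSdef : (SF B L : ℝ) ≤ L ^ (B + 2) := Nat.floor_le (by positivity)
  have hSdef' : L ^ (B + 2) < (SF B L : ℝ) + 1 := Nat.lt_floor_add_one _
  have hLB2 : L ^ (B + 2) = L ^ B * L ^ 2 := by
    rw [Real.rpow_add hL0]
    norm_num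
  have hL24 : 4 ≤ L ^ 2 := by nlinarith
  have hS4 : 4 * L ^ B ≤ L ^ (B + 2) := by
    rw [hLB2]
    nlinarith
  have hSlow : L ^ (B + 2) / 2 ≤ SF B L := by linarith
  have hSpos : (0 : ℝ) < SF B L := by linarith
  have hS1exp : (SF B L : ℝ) + 1 ≤ Real.exp (μ / 2 * L) := by
    have e1 : (SF B L : ℝ) + 1 ≤ 2 * L ^ (B + 2) := by linarith
    refine e1.trans ?_
    rw [← Real.log_le_iff_le_exp (by positivity), Real.log_mul (by norm_num) (by positivity),
      Real.log_rpow hL0]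
    have e2 : (B + 2) * Real.log L ≤ μ / 4 * L := by
      calc (B + 2) * Real.log L ≤ (B + 2) * (μ / (4 * (B + 2)) * L) :=
            mul_le_mul_of_nonneg_left h2b (by linarith)
        _ = μ / 4 * L := by field_simp
    have e3 : Real.log 2 < 1 := Real.log_two_lt_d9.trans (by norm_num)
    have e4 : 1 ≤ μ / 4 * L := by
      have : 4 / μ ≤ L := by linarith
      rw [div_le_iff₀ hμ0] at this
      linarith
    linarith
  have h24 : ((SF B L : ℝ) + 1) * (4 : ℝ) ^ (zF B K L) ≤ Real.exp (μ * L) := by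
    have e1 : (4 : ℝ) ^ (zF B K L) ≤ Real.exp (μ / 2 * L) := by
      rw [← Real.log_le_iff_le_exp (by positivity), Real.log_pow]
      have e1 : (zF B K L : ℝ) * Real.log 4 ≤ (μ / 8 * L) * 2 :=
        mul_le_mul hz1 hlog4 (Real.log_nonneg (by norm_num)) (by positivity)
      have e2 : 0 ≤ μ / 4 * L := by positivity
      linarith
    calc ((SF B L : ℝ) + 1) * (4 : ℝ) ^ (zF B K L) ≤ Real.exp (μ / 2 * L) * Real.exp (μ / 2 * L) :=
          mul_le_mul hS1exp e1 (by positivity) (Real.exp_pos _).le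
      _ = Real.exp (μ * L) := by
          rw [← Real.exp_add]
          congr 1
          ring
  have h24κ : ((SF B L : ℝ) + 1) * (4 : ℝ) ^ (zF B K L) ≤ (N : ℝ) ^ κ := by
    refine h24.trans ?_
    rw [Real.rpow_def_of_pos hX0, ← hL]
    apply Real.exp_le_exp.mpr
    rw [mul_comm]
    exact mul_le_mul_of_nonneg_left (min_le_left _ _) hL0.le
  have h24x : ((SF B L : ℝ) + 1) * (4 : ℝ) ^ (zF B K L) ≤ x := by
    refine h24.trans ?_
    rw [hx]
    apply Real.exp_le_exp.mpr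
    have : μ * L ≤ 1 / 4 * L := mul_le_mul_of_nonneg_right (min_le_right _ _) hL0.le
    linarith
  have hCEx : Real.exp (CE * zF B K L) ≤ x := Real.exp_le_exp.mpr hz2
  set Q := ⌊(N : ℝ) / L ^ B⌋₊ with hQ
  have hQle : (Q : ℝ) ≤ N / L ^ B := Nat.floor_le (by positivity)
  have hQlt : (N : ℝ) / L ^ B < Q + 1 := Nat.lt_floor_add_one _
  have hQx : x ^ 3 - 1 ≤ Q := by
    have e1 : x ^ 3 ≤ (N : ℝ) / L ^ B := by
      rw [le_div_iff₀ hLB0, hX4]
      calc x ^ 3 * L ^ B ≤ x ^ 3 * x := mul_le_mul_of_nonneg_left hLBx (by positivity)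
        _ = x ^ 4 := by ring
    linarith
  have hx3 : 64 * x ≤ x ^ 3 := by
    have : 64 ≤ x ^ 2 := by nlinarith
    calc 64 * x ≤ x ^ 2 * x := mul_le_mul_of_nonneg_right this hx0.le
      _ = x ^ 3 := by ring
  have hQ4 : 4 * x ≤ Q := by linarith
  have hQ0 : (0 : ℝ) < Q := by linarith
  have hQ1 : 1 ≤ Q := by
    have : 0 < Q := by exact_mod_cast hQ0
    omega
  have hτx : 8 ≤ τ * x := by
    rw [div_le_iff₀ hτ] at hxτ
    linarith
  have hQ2x : x ^ 2 ≤ Q := by
    have : 8 * x ^ 2 ≤ x ^ 3 := by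
      calc 8 * x ^ 2 ≤ x * x ^ 2 := mul_le_mul_of_nonneg_right hx8 (by positivity)
        _ = x ^ 3 := by ring
    nlinarith
  have hLx : L ≤ 4 * x := by
    have := Real.add_one_le_exp (L / 4)
    rw [← hx] at this
    linarith
  have hSge : CA * L / SF B L ≤ 2 * CA * L / L ^ (B + 2) := by
    rw [div_le_div_iff₀ hSpos (by positivity)]
    have e1 : 0 ≤ CA * L := by positivity
    have e2 : CA * L * L ^ (B + 2) ≤ CA * L * (2 * SF B L) := mul_le_mul_of_nonneg_left (by linarith) e1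
    calc CA * L * L ^ (B + 2) ≤ CA * L * (2 * SF B L) := e2
      _ = 2 * CA * L * SF B L := by ring
  refine ⟨hQ1, h24κ, ?_, ?_, ?_, ?_, ?_, ?_, ?_⟩
  · refine hCEx.trans ?_
    calc x = 1 * x := (one_mul x).symm
      _ ≤ (τ * x) * x := mul_le_mul_of_nonneg_right (by linarith) hx0.le
      _ = τ * x ^ 2 := by ring
      _ ≤ τ * Q := mul_le_mul_of_nonneg_left hQ2x hτ.le
  · have e1 : (N : ℝ) / L ^ (B + 1) ≤ N / L ^ B / 2 := by
      rw [Real.rpow_add_one hL0.ne', ← div_div]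
      apply div_le_div_of_nonneg_left (by positivity) (by norm_num) h6
    linarith
  · have : 0 < SF B L := by exact_mod_cast hSpos
    omega
  · have e1 : CA * L ≤ CA * (4 * x) := mul_le_mul_of_nonneg_left hLx hCA.le
    have e2 : (32 * CA) * x ≤ x * x := mul_le_mul_of_nonneg_right hxA hx0.le
    have e3 : x * x = x ^ 2 := by ring
    linarith
  · refine hSge.trans ?_
    rw [div_le_iff₀ (by positivity), hLB2]
    have e1 : 8 * CA ≤ L := by linarith
    have e2 : 8 * CA * L ≤ L * L := mul_le_mul_of_nonneg_right e1 hL0.le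
    have e3 : L * L ≤ L ^ B * L ^ 2 := by
      have e4 : 1 * L ^ 2 ≤ L ^ B * L ^ 2 := mul_le_mul_of_nonneg_right (by linarith) (by positivity)
      have e5 : L * L = 1 * L ^ 2 := by ring
      linarith
    linarith
  · have hlog2Q : Real.log ((2 * Q : ℕ) : ℝ) ≤ L + 1 := by
      have e1 : ((2 * Q : ℕ) : ℝ) ≤ 2 * N := by
        push_cast
        have e2 : (N : ℝ) / L ^ B ≤ N := div_le_self hX0.le (by linarith)
        linarith
      have e2 := Real.log_le_log (by
        have : 0 < 2 * Q := by omega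
        exact_mod_cast this) e1
      rw [Real.log_mul (by norm_num) hX0.ne'] at e2
      have e3 : Real.log 2 < 1 := Real.log_two_lt_d9.trans (by norm_num)
      linarith
    have hlog0 : 0 ≤ Real.log ((2 * Q : ℕ) : ℝ) := Real.log_nonneg (by
      have : 1 ≤ 2 * Q := by omega
      exact_mod_cast this)
    have e1 : Cg * (1 + Real.log ((2 * Q : ℕ) : ℝ)) * (CA * L / SF B L) ≤
        Cg * (2 * L) * (2 * CA * L / L ^ (B + 2)) := by
      apply mul_le_mul _ hSge (by positivity) (by positivity)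
      apply mul_le_mul_of_nonneg_left _ hCg.le
      linarith
    refine e1.trans ?_
    have e2 : Cg * (2 * L) * (2 * CA * L / L ^ (B + 2)) = 4 * Cg * CA / L ^ B := by
      rw [hLB2]
      field_simp
      ring
    rw [e2, div_le_iff₀ hLB0]
    have e3 : 16 * (6 * Cg * CA) / η ≤ L ^ B := by linarith
    rw [div_le_iff₀ hη] at e3
    have e4 : 0 < Cg * CA := by positivity
    linarith
  · intro X a hX1 hX2 ha
    have hX2' : (X : ℝ) ≤ N := by exact_mod_cast hX2
    have hax : (a : ℝ) ≤ x := ha.trans h24x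
    have haQ : a ≤ Q := by
      have : (a : ℝ) ≤ Q := by linarith
      exact_mod_cast this
    have hx4 : x ≤ x ^ 4 / 4 := by
      have : 4 ≤ x ^ 3 := by nlinarith
      calc x = x * 4 / 4 := by ring
        _ ≤ x * x ^ 3 / 4 := by
            have := mul_le_mul_of_nonneg_left this hx0.le
            linarith
        _ = x ^ 4 / 4 := by ring
    have haX : a ≤ X := by
      have : (a : ℝ) ≤ X := by
        rw [hX4] at hX1
        have : 0 < x ^ 4 := by positivity
        linarith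
      exact_mod_cast this
    have hXa : ((X - a : ℕ) : ℝ) = X - a := by
      push_cast [haX]
      ring
    set M := (X - a) / Q with hM
    have hM1 : (M : ℝ) ≤ ((X - a : ℕ) : ℝ) / Q := Nat.cast_div_le
    have hM2 : ((X - a : ℕ) : ℝ) / Q < M + 1 := by
      rw [div_lt_iff₀ hQ0]
      have := Nat.lt_mul_div_succ (X - a) hQ1
      have h5 : ((X - a : ℕ) : ℝ) < ((Q * ((X - a) / Q + 1) : ℕ) : ℝ) := by exact_mod_cast this
      rw [hM]
      push_cast at h5 ⊢
      linarith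
    have hMup : (M : ℝ) ≤ L ^ B + 1 := by
      refine hM1.trans ?_
      rw [div_le_iff₀ hQ0, hXa]
      have ha0 : (0 : ℝ) ≤ a := Nat.cast_nonneg _
      have e1 : (N : ℝ) < (Q + 1) * L ^ B := by
        rw [div_lt_iff₀ hLB0] at hQlt
        exact hQlt
      have e2 : (Q + 1) * L ^ B = Q * L ^ B + L ^ B := by ring
      have e3 : L ^ B ≤ Q := by linarith
      have e4 : (L ^ B + 1) * Q = Q * L ^ B + Q := by ring
      linarith
    have hMlo : L ^ B ≤ 6 * (M : ℝ) := by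
      have e1 : L ^ B / 4 ≤ ((X - a : ℕ) : ℝ) / Q := by
        rw [le_div_iff₀ hQ0, hXa]
        have e2 : (Q : ℝ) * L ^ B ≤ N := by
          rw [le_div_iff₀ hLB0] at hQle
          exact hQle
        have e3 : (a : ℝ) ≤ N / 4 := by
          rw [hX4]
          linarith
        linarith
      linarith
    refine ⟨haQ, ?_, ?_, hMup, ?_, ?_, hMlo, ?_⟩
    · refine hax.trans ?_
      have e1 : τ * (x ^ 4 / 2) ≤ τ * X := mul_le_mul_of_nonneg_left (by rw [hX4] at hX1; exact hX1) hτ.le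
      refine le_trans ?_ e1
      have e2 : 1 ≤ τ * x ^ 3 / 2 := by
        have : 8 * x ^ 2 ≤ (τ * x) * x ^ 2 := mul_le_mul_of_nonneg_right hτx (by positivity)
        have e3 : (τ * x) * x ^ 2 = τ * x ^ 3 := by ring
        have e4 : (8 : ℝ) * 8 ≤ x * x := mul_le_mul hx8 hx8 (by norm_num) hx0.le
        have e5 : x * x = x ^ 2 := by ring
        linarith
      calc x = 1 * x := (one_mul x).symm
        _ ≤ (τ * x ^ 3 / 2) * x := mul_le_mul_of_nonneg_right e2 hx0.le
        _ = τ * (x ^ 4 / 2) := by ring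
    · have : (S0 : ℝ) ≤ M := by linarith
      exact_mod_cast this
    · have : (M : ℝ) ≤ 2 * Q := by linarith
      exact_mod_cast this
    · refine hMup.trans ?_
      rw [Real.rpow_add_one hL0.ne']
      have e1 : L ^ B * 2 ≤ L ^ B * L := mul_le_mul_of_nonneg_left h6 hLB0.le
      linarith
    · have : (M : ℝ) ≤ SF B L := by linarith
      exact_mod_cast this

end Pool.Agent.H537.FT
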