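import Pool.Agent.H537.FT.Form
import Pool.Agent.H537.FT.Par2
import Pool.Graph.R_seed8.Helper923.HMertens
import Pool.Agent.H537.FG.Choice

/-! The final assembly for shifted copies, uniformly in the shifts, one parity. -/

set_option autoImplicit false
set_option maxHeartbeats 4000000

open Finset Filter

namespace Pool.Agent.H537.FT

open Pool.Agent.H537.FG Pool.Agent.N914.MR

/-- primes in an interval -/
theorem prime_card_le {w z : ℕ} (hw : 1 < w) :
    (((Ioc w z).filter Nat.Prime).card : ℝ) ≤ 2 * z / Real.log w := by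
  have hw0 : (1 : ℝ) < w := by exact_mod_cast hw
  have hlw : 0 < Real.log w := Real.log_pos hw0
  have h1 : w ^ ((Ioc w z).filter Nat.Prime).card ≤ 4 ^ z := by
    calc w ^ ((Ioc w z).filter Nat.Prime).card = ∏ _p ∈ (Ioc w z).filter Nat.Prime, w := by rw [prod_const]
      _ ≤ ∏ p ∈ (Ioc w z).filter Nat.Prime, p := prod_le_prod' fun p hp => by
          rw [mem_filter, mem_Ioc] at hp
          exact hp.1.1.le
      _ ≤ ∏ p ∈ (range (z + 1)).filter Nat.Prime, p := by
          apply prod_le_prod_of_subset_of_one_le'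
          · intro p hp
            rw [mem_filter, mem_Ioc] at hp
            rw [mem_filter, mem_range]
            exact ⟨by omega, hp.2⟩
          · intro p hp _
            exact (mem_filter.mp hp).2.one_le
      _ ≤ 4 ^ z := primorial_le_four_pow z
  have h2 : ((w : ℝ)) ^ ((Ioc w z).filter Nat.Prime).card ≤ 4 ^ z := by exact_mod_cast h1
  have h3 := Real.log_le_log (by positivity) h2
  rw [Real.log_pow, Real.log_pow] at h3
  rw [le_div_iff₀ hlw]
  have h4 : Real.log 4 ≤ 2 := by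
    have := Real.log_two_lt_d9
    have h5 : Real.log 4 = 2 * Real.log 2 := by
      rw [show (4 : ℝ) = 2 ^ 2 by norm_num, Real.log_pow]
      push_cast
      ring
    rw [h5]
    linarith
  have h5 : (z : ℝ) * Real.log 4 ≤ z * 2 := mul_le_mul_of_nonneg_left h4 (Nat.cast_nonneg _)
  linarith

theorem parityT (k : ℕ) (E : ℝ) (hE : 1 ≤ E) (B : ℝ) (hB : 0 < B) (ε : ℝ) (hε : 0 < ε) (K : ℕ)
    (hK2 : 2 ≤ K) (hBK : B < K) :
    ∃ η₀ : ℝ, 0 < η₀ ∧ ∀ η : ℝ, 0 < η → η ≤ η₀ → ∀ᶠ N : ℕ in atTop,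
      ∀ (h : Fin k → ℕ) (X : ℕ) (W : ℕ → ℝ) (I : ℕ → ℝ) (lam C : ℝ),
      (∀ i, (h i : ℝ) ≤ (N : ℝ) ^ E) → (∀ p : ℕ, p.Prime → nu h p < p) → (N : ℝ) / 2 ≤ X → X ≤ N →
      0 < lam → 0 < C → (∀ n, W n ≠ 0 → n.Prime ∧ ∀ i, (n + h i).Prime) →
      (∀ y : ℕ, (N : ℝ) / Real.log N ^ (B + 1) ≤ y → y ≤ X → |I y - lam * y| ≤ η * (lam * y)) →
      (∀ q a y : ℕ, 1 ≤ q → (q : ℝ) ≤ Real.log N ^ (B + 1) → (form h a).Coprime q →
        (N : ℝ) / Real.log N ^ (B + 1) ≤ y → y ≤ X →
        |cntW W y a q - C * (1 / (phi h q : ℝ)) * I y| ≤ η * (C * (1 / (phi h q : ℝ)) * I y)) →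
      ∃ a : ℕ, 1 ≤ a ∧ (a : ℝ) ≤ (N : ℝ) ^ ε ∧ ¬ 2 ∣ form h a ∧ 1 ≤ ⌊(N : ℝ) / Real.log N ^ B⌋₊ ∧
        η * ∑ q ∈ (Ioc ⌊(N : ℝ) / Real.log N ^ B⌋₊ (2 * ⌊(N : ℝ) / Real.log N ^ B⌋₊)).filter
            (fun q : ℕ => (form h a).Coprime q), C * (1 / (phi h q : ℝ)) * I X ≤
          (-1) ^ K * (∑ q ∈ (Ioc ⌊(N : ℝ) / Real.log N ^ B⌋₊ (2 * ⌊(N : ℝ) / Real.log N ^ B⌋₊)).filter
            (fun q : ℕ => (form h a).Coprime q), cntW W X a q -
            ∑ q ∈ (Ioc ⌊(N : ℝ) / Real.log N ^ B⌋₊ (2 * ⌊(N : ℝ) / Real.log N ^ B⌋₊)).filter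
            (fun q : ℕ => (form h a).Coprime q), C * (1 / (phi h q : ℝ)) * I X) := by
  classical
  have hK0 : (0 : ℝ) < K := by
    have : 0 < K := by omega
    exact_mod_cast this
  have hK1 : (1 : ℝ) ≤ K := by
    have : 1 ≤ K := by omega
    exact_mod_cast this
  have hk0 : (0 : ℝ) ≤ k := Nat.cast_nonneg _
  obtain ⟨Cm, hCm, hmert⟩ := Pool.Agent.Helper923.HMertens.mertens_ratio
  set c0 : ℝ := 1 / (8 * K) with hc0d
  have hc0 : 0 < c0 := by positivity
  set Ch : ℝ := 2 * ((k : ℝ) + 1) ^ 2 with hCh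
  have hCh0 : 0 ≤ Ch := by positivity
  obtain ⟨η₀, hη₀, τ, hτ, S0, hS0, hasm⟩ := asm2 Ch c0 hCh0 hc0 K
  set CA : ℝ := 2 * ((k : ℝ) + 1) * (1 + E) with hCA
  have hCA0 : 0 < CA := by positivity
  have hCR := CR_pos Ch
  refine ⟨η₀, hη₀, fun η hη hηle => ?_⟩
  have hlogX : Tendsto (fun X : ℕ => Real.log (X : ℝ)) atTop atTop :=
    Real.tendsto_log_atTop.comp tendsto_natCast_atTop_atTop
  set SS : ℝ := 2 * ((K : ℝ) + 1) / c0 + 20 * (|Cm| + 3) + 2 / c0 + 2 + 8 * K * |Cm| with hSS
  have hL1 := hlogX.eventually (parL B hB K hK2 (τ / 6) 3 SS (by positivity) (by norm_num))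
  have hL2 := hlogX.eventually (parL2 B hB K hK2 k hk0)
  have hX1 := parX2 B hB K hK2 hBK (min ε 1) τ 3 CA ((1 + Ch) * CR Ch) η (lt_min hε one_pos) hτ
    (by norm_num) hCA0 (by positivity) hη S0
  filter_upwards [hL1, hL2, hX1, hlogX.eventually_ge_atTop 1, eventually_ge_atTop 3] with N h1 h1' h2 hL1' hN3
  intro h X W I lam C hh hadm hX hXN hlam hC hW hI hsmall
  set L := Real.log (N : ℝ) with hL
  set w := wF B K L with hwd
  set z := zF B K L with hz
  set S := SF B L with hS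
  set Q := ⌊(N : ℝ) / L ^ B⌋₊ with hQ
  obtain ⟨g1, g2, g3, g4, g5, g6, g7⟩ := h1
  obtain ⟨k1, k2, k3, k4, k5, k6, k7, k8, k9⟩ := h2
  have hN0 : (0 : ℝ) < N := by
    have : 0 < N := by omega
    exact_mod_cast this
  have hN1 : (1 : ℝ) ≤ N := by
    have : 1 ≤ N := by omega
    exact_mod_cast this
  have hp1 : 0 < 2 * ((K : ℝ) + 1) / c0 := by positivity
  have habs := abs_nonneg Cm
  have hp2 : 0 ≤ 20 * (|Cm| + 3) := by positivity
  have hp5 : 0 < 2 / c0 := by positivity
  have hp6 : 0 ≤ 8 * K * |Cm| := by positivity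
  have hw2 : (2 : ℝ) ≤ w := by linarith
  have hw2' : 2 ≤ w := by exact_mod_cast hw2
  have hlw2 : 2 ≤ Real.log w := by linarith
  have hlw0 : 0 < Real.log w := by linarith
  have hlz : Real.log w ≤ Real.log z := by
    have : 0 ≤ 1 / (2 * (K : ℝ)) * Real.log w := by positivity
    linarith
  have hlz0 : 0 < Real.log z := by linarith
  have hz0 : (0 : ℝ) < z := by
    by_contra hc
    have h0 : (z : ℝ) = 0 := le_antisymm (not_lt.mp hc) (Nat.cast_nonneg _)
    rw [h0, Real.log_zero] at hlz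
    linarith
  have hwz : w ≤ z := by
    have : (w : ℝ) ≤ z := (Real.log_le_log_iff (by linarith) hz0).mp hlz
    exact_mod_cast this
  have hzS : z ≤ S := by
    rw [hz, hS]
    unfold zF SF
    apply Nat.floor_le_floor
    apply Real.rpow_le_rpow_of_exponent_le hL1'
    have : B / K ≤ B := div_le_self hB.le hK1
    linarith
  have hnS := h1' (by omega) hlz
  obtain ⟨a, ha1, ha2, ha3, ha4, ha5⟩ := choose_shift h hadm w z S hwz k5
  obtain ⟨m1, m2, m3, m4, m5, m6, m7, m8⟩ := k9 X a hX hXN ha1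
  set F := form h a with hF
  have hFne : F ≠ 0 := by
    rw [hF]
    unfold form
    apply mul_ne_zero (by omega)
    exact prod_ne_zero_iff.mpr fun i _ => by omega
  set A' : Finset ℕ := F.primeFactors with hA'
  set A : Finset ℕ := A'.filter (fun p => p ≤ S) with hA
  have hA'p : ∀ p ∈ A', p.Prime := fun p hp => Nat.prime_of_mem_primeFactors hp
  have hA'w : ∀ p ∈ A', w < p := by
    intro p hp
    by_contra hc
    push Not at hc
    exact ha3 p (hA'p p hp) hc (Nat.dvd_of_mem_primeFactors hp)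
  have hAw : ∀ p ∈ A, p.Prime ∧ w < p := fun p hp =>
    ⟨hA'p p (mem_filter.mp hp).1, hA'w p (mem_filter.mp hp).1⟩
  -- the number of the primes
  have hcard : (A.card : ℝ) ≤ 3 * z / Real.log w := by
    have hsub : A ⊆ (Ioc w z).filter Nat.Prime ∪ (Ioc z S).filter (fun p => p.Prime ∧ p ∣ form h a) := by
      intro p hp
      have hp' := mem_filter.mp hp
      rw [mem_union, mem_filter, mem_filter, mem_Ioc, mem_Ioc]
      rcases Nat.lt_or_ge z p with h3 | h3
      · right
        exact ⟨⟨h3, hp'.2⟩, hA'p p hp'.1, Nat.dvd_of_mem_primeFactors hp'.1⟩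
      · left
        exact ⟨⟨hA'w p hp'.1, h3⟩, hA'p p hp'.1⟩
    have e1 : (A.card : ℝ) ≤ (((Ioc w z).filter Nat.Prime).card : ℝ) +
        (((Ioc z S).filter (fun p => p.Prime ∧ p ∣ form h a)).card : ℝ) := by
      exact_mod_cast (card_le_card hsub).trans (card_union_le _ _)
    have e2 := prime_card_le (z := z) (show 1 < w by omega)
    have e3 : 3 * (z : ℝ) / Real.log w = 2 * z / Real.log w + z / Real.log w := by ring
    linarith
  have hlogF : Real.log F ≤ ((k : ℝ) + 1) * (1 + E) * L := by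
    have e0 : (N : ℝ) ≤ (N : ℝ) ^ E := by
      calc (N : ℝ) = (N : ℝ) ^ (1 : ℝ) := (Real.rpow_one _).symm
        _ ≤ _ := Real.rpow_le_rpow_of_exponent_le hN1 hE
    have e1 : (a : ℝ) ≤ (N : ℝ) ^ E := by
      have h3 : (a : ℝ) ≤ Q := by exact_mod_cast m1
      have h4 : (Q : ℝ) ≤ X := by
        have : (1 : ℕ) ≤ (X - a) / Q := by omega
        have h5 : 1 * Q ≤ X - a := (Nat.le_div_iff_mul_le k1).mp this
        have h6 : Q ≤ X := by omega
        exact_mod_cast h6
      have h5 : (X : ℝ) ≤ N := by exact_mod_cast hXN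
      linarith
    have hNE : (0 : ℝ) < (N : ℝ) ^ E := Real.rpow_pos_of_pos hN0 _
    have e2 : (F : ℝ) ≤ (2 * (N : ℝ) ^ E) ^ (k + 1) := by
      rw [hF]
      unfold form
      push_cast
      have e3 : ∏ i, ((a : ℝ) + (h i : ℝ)) ≤ ∏ _i : Fin k, (2 * (N : ℝ) ^ E) := by
        apply prod_le_prod (fun i _ => by positivity)
        intro i _
        have := hh i
        linarith
      rw [prod_const, card_univ, Fintype.card_fin] at e3
      calc (a : ℝ) * ∏ i, ((a : ℝ) + (h i : ℝ)) ≤ (2 * (N : ℝ) ^ E) * (2 * (N : ℝ) ^ E) ^ k := by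
            apply mul_le_mul (by linarith) e3 (prod_nonneg fun i _ => by positivity) (by positivity)
        _ = _ := by ring
    have hF0 : (0 : ℝ) < F := by exact_mod_cast Nat.pos_of_ne_zero hFne
    have e3 := Real.log_le_log hF0 e2
    rw [Real.log_pow, Real.log_mul (by norm_num) hNE.ne', Real.log_rpow hN0, ← hL] at e3
    have e4 : Real.log 2 < 1 := Real.log_two_lt_d9.trans (by norm_num)
    refine e3.trans ?_
    push_cast
    have e5 : Real.log 2 + E * L ≤ (1 + E) * L := by linarith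
    calc ((k : ℝ) + 1) * (Real.log 2 + E * L) ≤ ((k : ℝ) + 1) * ((1 + E) * L) :=
          mul_le_mul_of_nonneg_left e5 (by positivity)
      _ = _ := by ring
  have hcardA' : (A'.card : ℝ) ≤ CA * L := by
    have e1 := card_log_le (w := 1) hFne (fun p hp => (hA'p p hp).one_lt) one_pos
    have e2 : 2 ^ A'.card ≤ F := by
      calc 2 ^ A'.card = ∏ _p ∈ A', 2 := by rw [prod_const]
        _ ≤ ∏ p ∈ A', p := prod_le_prod' fun p hp => (hA'p p hp).two_le
        _ ≤ F := Nat.le_of_dvd (Nat.pos_of_ne_zero hFne) (Nat.prod_primeFactors_dvd F)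
    have e3 : (2 : ℝ) ^ A'.card ≤ F := by exact_mod_cast e2
    have e4 := Real.log_le_log (by positivity) e3
    rw [Real.log_pow] at e4
    have e5 : (1 : ℝ) / 2 ≤ Real.log 2 := by
      have := Real.log_two_gt_d9
      linarith
    have e6 : (A'.card : ℝ) * (1 / 2) ≤ A'.card * Real.log 2 :=
      mul_le_mul_of_nonneg_left e5 (Nat.cast_nonneg _)
    rw [hCA]
    linarith
  have hS0' : (0 : ℝ) < S := by exact_mod_cast k5
  have hcS : (A'.card : ℝ) / S ≤ CA * L / S := div_le_div_of_nonneg_right hcardA' hS0'.le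
  have hs1 : c0 ≤ ∑ p ∈ A, rc p := by
    have e1 := (abs_le.mp (hmert w z hw2' hwz)).1
    have e2 : 1 / (4 * (K : ℝ)) ≤ Real.log (Real.log z / Real.log w) := by
      have e3 : 1 + 1 / (2 * (K : ℝ)) ≤ Real.log z / Real.log w := by
        rw [le_div_iff₀ hlw0]
        exact g3
      have e4 := Real.one_sub_inv_le_log_of_pos (x := 1 + 1 / (2 * (K : ℝ))) (by positivity)
      have e5 := Real.log_le_log (by positivity) e3
      have e6 : 1 / (4 * (K : ℝ)) ≤ 1 - (1 + 1 / (2 * (K : ℝ)))⁻¹ := by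
        have : 1 - (1 + 1 / (2 * (K : ℝ)))⁻¹ = 1 / (2 * K + 1) := by
          field_simp
          ring
        rw [this]
        apply one_div_le_one_div_of_le (by positivity)
        linarith
      linarith
    have e3 : Cm / Real.log w ≤ 1 / (8 * K) := by
      have h3 : Cm ≤ |Cm| := le_abs_self _
      rw [div_le_div_iff₀ hlw0 (by positivity)]
      have h4 : 8 * K * |Cm| ≤ Real.log w := by linarith
      calc Cm * (8 * K) ≤ |Cm| * (8 * K) := mul_le_mul_of_nonneg_right h3 (by positivity)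
        _ = 8 * K * |Cm| := by ring
        _ ≤ 1 * Real.log w := by linarith
    have e4 : ∑ p ∈ (Ioc w z).filter Nat.Prime, (1 : ℝ) / p ≤ ∑ p ∈ A, rc p := by
      calc ∑ p ∈ (Ioc w z).filter Nat.Prime, (1 : ℝ) / p = ∑ p ∈ (Ioc w z).filter Nat.Prime, rc p :=
            sum_congr rfl fun p hp => (rc_eq (mem_filter.mp hp).2.pos).symm
        _ ≤ _ := by
            apply sum_le_sum_of_subset_of_nonneg _ fun p _ _ => rc_nonneg p
            intro p hp
            rw [mem_filter] at hp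
            have h3 := mem_Ioc.mp hp.1
            rw [hA, mem_filter, hA', Nat.mem_primeFactors]
            refine ⟨⟨hp.2, ?_, hFne⟩, by omega⟩
            rw [hF]
            exact (form_dvd h hp.2 a).mpr (Or.inl (ha4 p hp.1 hp.2))
    have e5 : 1 / (4 * (K : ℝ)) = 1 / (8 * K) + 1 / (8 * K) := by
      field_simp
      norm_num
    rw [hc0d]
    linarith
  have hs2 : ∑ p ∈ A, rc p ≤ 1 / 2 := by
    refine (recip_le hAw (by omega : 0 < z)).trans ?_
    have e1 := (abs_le.mp (hmert w z hw2' hwz)).2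
    have e2 : Real.log (Real.log z / Real.log w) ≤ 9 / 20 := by
      refine le_trans ?_ log_small
      apply Real.log_le_log (by positivity)
      rw [div_le_iff₀ hlw0]
      exact g4
    have e3 : (A.card : ℝ) / z ≤ 3 / Real.log w := by
      rw [div_le_iff₀ hz0]
      refine hcard.trans (le_of_eq ?_)
      ring
    have e4 : Cm / Real.log w + 3 / Real.log w ≤ 1 / 20 := by
      rw [← add_div, div_le_iff₀ hlw0]
      have : Cm ≤ |Cm| := le_abs_self _
      linarith
    linarith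
  have hwK : 2 * ((K : ℝ) + 1) ≤ c0 * w := by
    have e1 : 2 * ((K : ℝ) + 1) / c0 ≤ w := by linarith
    rw [div_le_iff₀ hc0] at e1
    linarith
  have hMw : (X - a) / Q < (w + 1) ^ (K + 1) := by
    have : (((X - a) / Q : ℕ) : ℝ) < ((w : ℝ) + 1) ^ (K + 1) := lt_of_le_of_lt m4 g6
    exact_mod_cast this
  have hcardK : ((A.card : ℝ) + 1) ^ K ≤ τ * (((X - a) / Q : ℕ) : ℝ) := by
    calc ((A.card : ℝ) + 1) ^ K ≤ (3 * z / Real.log w + 1) ^ K :=
          pow_le_pow_left₀ (by positivity) (by linarith) K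
      _ ≤ τ / 6 * L ^ B := g5
      _ ≤ τ / 6 * (6 * (((X - a) / Q : ℕ) : ℝ)) := mul_le_mul_of_nonneg_left m7 (by positivity)
      _ = _ := by ring
  have hcard2 : (2 : ℝ) ^ A.card ≤ τ * Q := by
    refine le_trans ?_ k3
    have e1 : (2 : ℝ) ^ A.card ≤ Real.exp 1 ^ A.card := by
      apply pow_le_pow_left₀ (by norm_num)
      have := Real.add_one_le_exp (1 : ℝ)
      linarith
    refine e1.trans ?_
    rw [← Real.exp_nat_mul, mul_one]
    apply Real.exp_le_exp.mpr
    refine hcard.trans ?_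
    exact div_le_self (by positivity) (by linarith)
  have hlog0 : 0 ≤ Real.log ((2 * Q : ℕ) : ℝ) := Real.log_nonneg (by
    have : 1 ≤ 2 * Q := by omega
    exact_mod_cast this)
  have hext : (1 + Ch) * CR Ch * (1 + Real.log ((2 * Q : ℕ) : ℝ)) * ((A'.card : ℝ) / S) ≤ η / 16 := by
    refine le_trans ?_ k8
    exact mul_le_mul_of_nonneg_left hcS (by positivity)
  -- two primes
  have hWa : W a = 0 := by
    by_contra h0
    have hap := (hW a h0).1
    have h6 : 1 < ((Ioc w z).filter Nat.Prime).card := by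
      by_contra hc
      push Not at hc
      have e1 := (abs_le.mp (hmert w z hw2' hwz)).1
      have e2 : 1 / (4 * (K : ℝ)) ≤ Real.log (Real.log z / Real.log w) := by
        have e3 : 1 + 1 / (2 * (K : ℝ)) ≤ Real.log z / Real.log w := by
          rw [le_div_iff₀ hlw0]
          exact g3
        have e4 := Real.one_sub_inv_le_log_of_pos (x := 1 + 1 / (2 * (K : ℝ))) (by positivity)
        have e5 := Real.log_le_log (by positivity) e3
        have e6 : 1 / (4 * (K : ℝ)) ≤ 1 - (1 + 1 / (2 * (K : ℝ)))⁻¹ := by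
          have : 1 - (1 + 1 / (2 * (K : ℝ)))⁻¹ = 1 / (2 * K + 1) := by
            field_simp
            ring
          rw [this]
          apply one_div_le_one_div_of_le (by positivity)
          linarith
        linarith
      have e3 : Cm / Real.log w ≤ 1 / (8 * K) := by
        have h3 : Cm ≤ |Cm| := le_abs_self _
        rw [div_le_div_iff₀ hlw0 (by positivity)]
        have h4 : 8 * K * |Cm| ≤ Real.log w := by linarith
        calc Cm * (8 * K) ≤ |Cm| * (8 * K) := mul_le_mul_of_nonneg_right h3 (by positivity)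
          _ = 8 * K * |Cm| := by ring
          _ ≤ 1 * Real.log w := by linarith
      have e5 : 1 / (4 * (K : ℝ)) = 1 / (8 * K) + 1 / (8 * K) := by
        field_simp
        norm_num
      have h7 : ∑ p ∈ (Ioc w z).filter Nat.Prime, (1 : ℝ) / p ≤
          ∑ p ∈ (Ioc w z).filter Nat.Prime, (1 : ℝ) / w := by
        refine sum_le_sum fun p hp => ?_
        rw [mem_filter, mem_Ioc] at hp
        apply one_div_le_one_div_of_le (by linarith)
        exact_mod_cast hp.1.1.le
      rw [sum_const, nsmul_eq_mul] at h7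
      have h8 : (((Ioc w z).filter Nat.Prime).card : ℝ) ≤ 1 := by
        exact_mod_cast hc
      have h9 : (0 : ℝ) < 1 / w := by positivity
      have h9' : (((Ioc w z).filter Nat.Prime).card : ℝ) * (1 / w) ≤ 1 * (1 / w) :=
        mul_le_mul_of_nonneg_right h8 h9.le
      have h10 : c0 ≤ 1 / (w : ℝ) := by
        rw [hc0d]
        linarith
      rw [le_div_iff₀ (by linarith)] at h10
      have h11 : 2 / c0 ≤ w := by linarith
      rw [div_le_iff₀ hc0] at h11
      linarith
    obtain ⟨p, hp, q, hq, hpq⟩ := one_lt_card.mp h6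
    rw [mem_filter] at hp hq
    have e3 := (Nat.prime_dvd_prime_iff_eq hp.2 hap).mp (ha4 p hp.1 hp.2)
    have e4 := (Nat.prime_dvd_prime_iff_eq hq.2 hap).mp (ha4 q hq.1 hq.2)
    exact hpq (e3.trans e4.symm)
  -- the values are coprime to the primes dividing `F`
  have hval : ∀ n m : ℕ, a < n → n ≡ a [MOD m] → W n ≠ 0 → ∀ p ∈ A', ¬ p ∣ m := by
    intro n m hn hnm hWn p hp hpm
    obtain ⟨h3, h4⟩ := hW n hWn
    have h5 : n ≡ a [MOD p] := hnm.of_dvd hpm
    have hpp := hA'p p hp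
    have hpF : p ∣ form h a := Nat.dvd_of_mem_primeFactors hp
    rcases (form_dvd h hpp a).mp hpF with h6 | ⟨i, h6⟩
    · have h7 : p ∣ n := (h5.dvd_iff (dvd_refl p)).mpr h6
      have h8 := (Nat.prime_dvd_prime_iff_eq hpp h3).mp h7
      have h9 := Nat.le_of_dvd (by omega) h6
      omega
    · have h7 : p ∣ n + h i := ((h5.add_right (h i)).dvd_iff (dvd_refl p)).mpr h6
      have h8 := (Nat.prime_dvd_prime_iff_eq hpp (h4 i)).mp h7
      have h9 := Nat.le_of_dvd (by omega) h6
      omega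
  have hcop : ∀ q : ℕ, F.Coprime q ↔ Fr A' q := by
    intro q
    constructor
    · intro h3 p hp hpq
      have h4 : p ∣ Nat.gcd F q := Nat.dvd_gcd (Nat.dvd_of_mem_primeFactors hp) hpq
      rw [h3] at h4
      exact (hA'p p hp).one_lt.ne' (Nat.dvd_one.mp h4)
    · intro h3
      by_contra hc
      obtain ⟨p, hp, hd⟩ := Nat.exists_prime_and_dvd hc
      exact h3 p (Nat.mem_primeFactors.mpr ⟨hp, hd.trans (Nat.gcd_dvd_left _ _), hFne⟩)
        (hd.trans (Nat.gcd_dvd_right _ _))
  have hfin := hasm η hη hηle (hv h) A A' w X Q a S W I lam C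
    (fun p hp => hv_nonneg (hadm p hp)) (fun p hp => hv_le hp (hadm p hp)) hAw hs1 hs2 hwK k1 m3 hMw m5
    hcardK hcard2 (filter_subset _ _) hA'p
    (fun p hp hpA => by
      by_contra hc
      push Not at hc
      exact hpA (mem_filter.mpr ⟨hp, hc⟩)) k5 (hcardA'.trans k6) (hcS.trans k7) hext hlam hC
    (fun y hy1 hy2 => hI y (k4.trans (by exact_mod_cast hy1)) hy2) m1 m2 hWa
    (by
      intro q m hq1 hq2 hm1 hm2 hR
      have hqm : 1 ≤ q * m := Nat.mul_pos (by omega) hm1
      constructor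
      · exact hval _ q (by omega) (by unfold Nat.ModEq; simp) hR
      · intro p hp
        exact hval _ m (by omega) (by unfold Nat.ModEq; simp) hR p (mem_filter.mp hp).1)
    (by
      intro m y hm1 hmM hmF hy1 hy2
      have hmc : F.Coprime m := by
        rw [hcop]
        intro p hp hpm
        have h3 := Nat.le_of_dvd hm1 hpm
        exact hmF p (mem_filter.mpr ⟨hp, by omega⟩) hpm
      have h5 := hsmall m a y hm1 (le_trans (by exact_mod_cast hmM) m6) hmc
        (k4.trans (by exact_mod_cast hy1)) hy2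
      rw [gg_hv hadm hm1]
      exact h5)
  refine ⟨a, ha2, (ha1.trans k2).trans (Real.rpow_le_rpow_of_exponent_le hN1 (min_le_left _ _)),
    ha3 2 Nat.prime_two hw2', k1, ?_⟩
  have hfil : (Ioc Q (2 * Q)).filter (fun q : ℕ => F.Coprime q) = (Ioc Q (2 * Q)).filter (Fr A') := by
    apply filter_congr
    intro q _
    exact hcop q
  rw [hfil]
  have hsum : ∑ q ∈ (Ioc Q (2 * Q)).filter (Fr A'), C * (gg (hv h) q / q) * I X =
      ∑ q ∈ (Ioc Q (2 * Q)).filter (Fr A'), C * (1 / (phi h q : ℝ)) * I X := by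
    refine sum_congr rfl fun q hq => ?_
    rw [mem_filter, mem_Ioc] at hq
    rw [gg_hv hadm (by omega)]
  rw [hsum] at hfin
  exact hfin

end Pool.Agent.H537.FT
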