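import Pool.Agent.H537.FT.AsmW

/-! A few large primes are added to the set of the forbidden primes. -/

set_option autoImplicit false
set_option maxHeartbeats 4000000

open Finset

namespace Pool.Agent.H537.FT

open Pool.Agent.H537.FG Pool.Agent.N914.MR

theorem sum_biUnion_le' {ι κ : Type*} [DecidableEq ι] [DecidableEq κ] (s : Finset ι) (t : ι → Finset κ)
    (f : κ → ℝ) (hf : ∀ x, 0 ≤ f x) : ∑ x ∈ s.biUnion t, f x ≤ ∑ i ∈ s, ∑ x ∈ t i, f x := by
  induction s using Finset.induction_on with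
  | empty => simp
  | insert i s hi ih =>
    rw [biUnion_insert, sum_insert hi]
    have h1 := sum_union_inter (s₁ := t i) (s₂ := s.biUnion t) (f := f)
    have h2 : 0 ≤ ∑ x ∈ t i ∩ s.biUnion t, f x := sum_nonneg fun x _ => hf x
    linarith

theorem Fr_empty (m : ℕ) : Fr ∅ m := fun p hp => by simp at hp

/-- the sum of `gg h q / q` over all `q ≤ N` -/
theorem gg_sum_le {h : ℕ → ℝ} {Ch : ℝ} (h0 : ∀ p, p.Prime → 0 ≤ h p)
    (h1 : ∀ p, p.Prime → h p ≤ Ch / p) (hCh : 0 ≤ Ch) {N : ℕ} (hN : 1 ≤ N) :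
    ∑ q ∈ Ioc 0 N, gg h q / q ≤ CR Ch * (1 + Real.log N) := by
  have hs := swap h ∅ (by simp) (fun q : ℕ => 1 / (q : ℝ)) 0 N
  have e1 : ∑ q ∈ Ioc 0 N, gg h q / q = ∑ q ∈ (Ioc 0 N).filter (Fr ∅), gg h q * (1 / (q : ℝ)) := by
    rw [filter_true_of_mem fun q _ => Fr_empty q]
    refine sum_congr rfl fun q _ => ?_
    rw [mul_one_div]
  rw [e1, hs]
  have hlog : 0 ≤ Real.log (N : ℝ) := Real.log_nonneg (by exact_mod_cast hN)
  have e2 : ∀ e ∈ Sf ∅ N, hh h e * ∑ j ∈ (Ioc (0 / e) (N / e)).filter (Fr ∅), 1 / ((e * j : ℕ) : ℝ) ≤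
      hh h e / (e : ℝ) * (1 + Real.log N) := by
    intro e he
    unfold Sf at he
    rw [mem_filter, mem_Icc] at he
    have he0 : (0 : ℝ) < e := by
      have : 0 < e := by omega
      exact_mod_cast this
    rw [Nat.zero_div, filter_true_of_mem fun q _ => Fr_empty q]
    have e3 : ∑ j ∈ Ioc 0 (N / e), 1 / ((e * j : ℕ) : ℝ) = 1 / (e : ℝ) * ∑ j ∈ Ioc 0 (N / e), 1 / (j : ℝ) := by
      rw [mul_sum]
      refine sum_congr rfl fun j _ => ?_
      push_cast
      rw [one_div_mul_one_div]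
    rw [e3]
    have e4 : ∑ j ∈ Ioc 0 (N / e), 1 / (j : ℝ) ≤ 1 + Real.log N := by
      have hsub : Ioc 0 (N / e) ⊆ Ioc 0 N := Ioc_subset_Ioc_right (Nat.div_le_self _ _)
      refine (sum_le_sum_of_subset_of_nonneg hsub fun _ _ _ => by positivity).trans ?_
      have h3 := harm_le le_rfl hN
      have h4 : Ioc 0 N = insert 1 (Ioc 1 N) := by
        ext x
        simp only [mem_Ioc, mem_insert]
        omega
      rw [h4, sum_insert (by simp)]
      simp only [Nat.cast_one, Real.log_one, sub_zero, div_one] at h3 ⊢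
      linarith
    calc hh h e * (1 / (e : ℝ) * ∑ j ∈ Ioc 0 (N / e), 1 / (j : ℝ)) =
        hh h e / e * ∑ j ∈ Ioc 0 (N / e), 1 / (j : ℝ) := by ring
      _ ≤ _ := mul_le_mul_of_nonneg_left e4 (div_nonneg (hh_nonneg h0 e) he0.le)
  refine (sum_le_sum e2).trans ?_
  rw [← sum_mul]
  apply mul_le_mul_of_nonneg_right _ (by linarith)
  exact Sg_le h0 h1 hCh ∅ N

theorem gg_mul_le {h : ℕ → ℝ} (h0 : ∀ p, p.Prime → 0 ≤ h p) {p q : ℕ} (hp : p.Prime) (hq : q ≠ 0) :
    gg h (p * q) ≤ (1 + h p) * gg h q := by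
  classical
  unfold gg
  rw [Nat.primeFactors_mul hp.ne_zero hq, hp.primeFactors]
  by_cases hpq : p ∈ q.primeFactors
  · rw [union_eq_right.mpr (singleton_subset_iff.mpr hpq)]
    have h1 : 0 ≤ ∏ r ∈ q.primeFactors, (1 + h r) := prod_nonneg fun r hr => by
      linarith [h0 r (Nat.prime_of_mem_primeFactors hr)]
    have h2 := h0 p hp
    nlinarith
  · rw [prod_union (disjoint_singleton_left.mpr hpq), prod_singleton]

/-- the multiples of a prime -/
theorem mult_le {h : ℕ → ℝ} {Ch : ℝ} (h0 : ∀ p, p.Prime → 0 ≤ h p)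
    (h1 : ∀ p, p.Prime → h p ≤ Ch / p) (hCh : 0 ≤ Ch) {Q p : ℕ} (hQ : 1 ≤ Q) (hp : p.Prime) :
    ∑ q ∈ (Ioc Q (2 * Q)).filter (fun q => p ∣ q), gg h q / q ≤
      (1 + Ch) / p * (CR Ch * (1 + Real.log ((2 * Q : ℕ) : ℝ))) := by
  classical
  have hp0 : (0 : ℝ) < p := by exact_mod_cast hp.pos
  have hp1 : (1 : ℝ) ≤ p := by exact_mod_cast hp.one_le
  have hhp := h0 p hp
  have hhp' : h p ≤ Ch := (h1 p hp).trans (div_le_self hCh hp1)
  have e1 : ∑ q ∈ (Ioc Q (2 * Q)).filter (fun q => p ∣ q), gg h q / q ≤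
      ∑ q ∈ Ioc 0 (2 * Q), (1 + h p) / p * (gg h q / q) := by
    calc ∑ q ∈ (Ioc Q (2 * Q)).filter (fun q => p ∣ q), gg h q / q ≤
        ∑ q ∈ (Ioc 0 (2 * Q)).image (fun q => p * q), gg h q / q := by
          apply sum_le_sum_of_subset_of_nonneg
          · intro q hq
            rw [mem_filter, mem_Ioc] at hq
            obtain ⟨⟨h2, h3⟩, j, hj⟩ := hq
            rw [mem_image]
            refine ⟨j, ?_, hj.symm⟩
            rw [mem_Ioc]
            constructor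
            · rcases Nat.eq_zero_or_pos j with hz | hz
              · rw [hz] at hj
                omega
              · exact hz
            · have : j ≤ p * j := Nat.le_mul_of_pos_left j hp.pos
              omega
          · intro q _ _
            exact div_nonneg (zero_le_one.trans (one_le_gg h0 q)) (Nat.cast_nonneg _)
      _ = ∑ q ∈ Ioc 0 (2 * Q), gg h (p * q) / ((p * q : ℕ) : ℝ) := by
          rw [sum_image]
          intro x _ y _ hxy
          exact Nat.eq_of_mul_eq_mul_left hp.pos hxy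
      _ ≤ _ := by
          refine sum_le_sum fun q hq => ?_
          rw [mem_Ioc] at hq
          have hq0 : (0 : ℝ) < q := by exact_mod_cast hq.1
          push_cast
          rw [div_mul_div_comm]
          exact div_le_div_of_nonneg_right (gg_mul_le h0 hp hq.1.ne') (by positivity)
  refine e1.trans ?_
  rw [← mul_sum]
  have e2 := gg_sum_le h0 h1 hCh (N := 2 * Q) (by omega)
  have e3 : 0 ≤ ∑ q ∈ Ioc 0 (2 * Q), gg h q / q := sum_nonneg fun q _ =>
    div_nonneg (zero_le_one.trans (one_le_gg h0 q)) (Nat.cast_nonneg _)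
  apply mul_le_mul _ e2 e3 (by positivity)
  exact div_le_div_of_nonneg_right (by linarith) hp0.le

/-- the effect of the additional primes -/
theorem TQ_ext {h : ℕ → ℝ} {Ch : ℝ} (h0 : ∀ p, p.Prime → 0 ≤ h p)
    (h1 : ∀ p, p.Prime → h p ≤ Ch / p) (hCh : 0 ≤ Ch) {Q S : ℕ} (hQ : 1 ≤ Q) (hS : 1 ≤ S)
    {A A' : Finset ℕ} (hAA : A ⊆ A') (hA' : ∀ p ∈ A', p.Prime) (hbig : ∀ p ∈ A', p ∉ A → S < p) :
    0 ≤ TQ h A Q - TQ h A' Q ∧ TQ h A Q - TQ h A' Q ≤
      (1 + Ch) * CR Ch * (1 + Real.log ((2 * Q : ℕ) : ℝ)) * ((A'.card : ℝ) / S) := by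
  classical
  have hgn : ∀ q : ℕ, 0 ≤ gg h q / (q : ℝ) := fun q =>
    div_nonneg (zero_le_one.trans (one_le_gg h0 q)) (Nat.cast_nonneg _)
  have hS0 : (0 : ℝ) < S := by exact_mod_cast hS
  have e0 : ∀ B : Finset ℕ, TQ h B Q = ∑ q ∈ (Ioc Q (2 * Q)).filter (Fr B), gg h q / q := by
    intro B
    unfold TQ
    refine sum_congr rfl fun q _ => ?_
    ring
  have e1 : TQ h A Q - TQ h A' Q =
      ∑ q ∈ ((Ioc Q (2 * Q)).filter (Fr A)).filter (fun q => ¬ Fr A' q), gg h q / q := by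
    rw [e0, e0, ← sum_filter_add_sum_filter_not ((Ioc Q (2 * Q)).filter (Fr A)) (Fr A')]
    have : ((Ioc Q (2 * Q)).filter (Fr A)).filter (Fr A') = (Ioc Q (2 * Q)).filter (Fr A') := by
      rw [filter_filter]
      apply filter_congr
      intro q _
      constructor
      · exact fun hq => hq.2
      · exact fun hq => ⟨fun p hp => hq p (hAA hp), hq⟩
    rw [this]
    ring
  rw [e1]
  refine ⟨sum_nonneg fun q _ => hgn q, ?_⟩
  have e2 : ∑ q ∈ ((Ioc Q (2 * Q)).filter (Fr A)).filter (fun q => ¬ Fr A' q), gg h q / q ≤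
      ∑ p ∈ A' \ A, ∑ q ∈ (Ioc Q (2 * Q)).filter (fun q => p ∣ q), gg h q / q := by
    have hsub : ((Ioc Q (2 * Q)).filter (Fr A)).filter (fun q => ¬ Fr A' q) ⊆
        (A' \ A).biUnion fun p => (Ioc Q (2 * Q)).filter (fun q => p ∣ q) := by
      intro q hq
      rw [mem_filter, mem_filter] at hq
      obtain ⟨⟨h2, h3⟩, h4⟩ := hq
      unfold Fr at h4
      push Not at h4
      obtain ⟨p, hp, hpq⟩ := h4
      rw [mem_biUnion]
      refine ⟨p, ?_, mem_filter.mpr ⟨h2, hpq⟩⟩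
      rw [mem_sdiff]
      exact ⟨hp, fun hpA => h3 p hpA hpq⟩
    refine (sum_le_sum_of_subset_of_nonneg hsub fun q _ _ => hgn q).trans ?_
    exact sum_biUnion_le' _ _ _ hgn
  refine e2.trans ?_
  have hlog : 0 ≤ Real.log ((2 * Q : ℕ) : ℝ) := Real.log_nonneg (by
    have : 1 ≤ 2 * Q := by omega
    exact_mod_cast this)
  have hCR := CR_pos Ch
  calc ∑ p ∈ A' \ A, ∑ q ∈ (Ioc Q (2 * Q)).filter (fun q => p ∣ q), gg h q / q ≤
      ∑ p ∈ A' \ A, (1 + Ch) * CR Ch * (1 + Real.log ((2 * Q : ℕ) : ℝ)) * (1 / S) := by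
        refine sum_le_sum fun p hp => ?_
        rw [mem_sdiff] at hp
        refine (mult_le h0 h1 hCh hQ (hA' p hp.1)).trans ?_
        have hpS : (S : ℝ) ≤ p := by exact_mod_cast (hbig p hp.1 hp.2).le
        calc (1 + Ch) / p * (CR Ch * (1 + Real.log ((2 * Q : ℕ) : ℝ))) =
            (1 + Ch) * CR Ch * (1 + Real.log ((2 * Q : ℕ) : ℝ)) * (1 / p) := by ring
          _ ≤ _ := by
              apply mul_le_mul_of_nonneg_left _ (by positivity)
              exact one_div_le_one_div_of_le hS0 hpS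
    _ = (1 + Ch) * CR Ch * (1 + Real.log ((2 * Q : ℕ) : ℝ)) * (((A' \ A).card : ℝ) / S) := by
        rw [sum_const, nsmul_eq_mul]
        ring
    _ ≤ _ := by
        apply mul_le_mul_of_nonneg_left _ (by positivity)
        apply div_le_div_of_nonneg_right _ hS0.le
        exact_mod_cast card_le_card sdiff_subset

/-- a lower bound -/
theorem TQ_low {h : ℕ → ℝ} (h0 : ∀ p, p.Prime → 0 ≤ h p) {Q : ℕ} (hQ : 1 ≤ Q)
    {A : Finset ℕ} (hA : ∀ p ∈ A, p.Prime) (hs : ∑ p ∈ A, rc p ≤ 3 / 4) (hc : (A.card : ℝ) ≤ Q / 8) :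
    1 / 16 ≤ TQ h A Q := by
  classical
  have hQ0 : (0 : ℝ) < Q := by exact_mod_cast hQ
  have e1 : (((Ioc Q (2 * Q)).filter (fun q => ¬ Fr A q)).card : ℝ) ≤ 7 / 8 * Q := by
    have hsub : (Ioc Q (2 * Q)).filter (fun q => ¬ Fr A q) ⊆
        A.biUnion fun p => (Ioc Q (2 * Q)).filter (fun q => p ∣ q) := by
      intro q hq
      rw [mem_filter] at hq
      obtain ⟨h2, h4⟩ := hq
      unfold Fr at h4
      push Not at h4
      obtain ⟨p, hp, hpq⟩ := h4
      rw [mem_biUnion]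
      exact ⟨p, hp, mem_filter.mpr ⟨h2, hpq⟩⟩
    have h2 : (((Ioc Q (2 * Q)).filter (fun q => ¬ Fr A q)).card : ℝ) ≤
        ∑ p ∈ A, (((Ioc Q (2 * Q)).filter (fun q => p ∣ q)).card : ℝ) := by
      exact_mod_cast (card_le_card hsub).trans card_biUnion_le
    refine h2.trans ?_
    have h3 : ∀ p ∈ A, (((Ioc Q (2 * Q)).filter (fun q => p ∣ q)).card : ℝ) ≤ Q * rc p + 1 := by
      intro p hp
      have hpp := hA p hp
      have hp0 : (0 : ℝ) < p := by exact_mod_cast hpp.pos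
      have h4 : ((Ioc Q (2 * Q)).filter (fun q => p ∣ q)).card ≤ Q / p + 1 := by
        have h5 : ((Ioc Q (2 * Q)).filter (fun q => p ∣ q)).card ≤
            (Ioc (Q / p) (2 * Q / p)).card := by
          apply card_le_card_of_injOn (fun q => q / p)
          · intro q hq
            rw [mem_coe, mem_filter, mem_Ioc] at hq
            rw [mem_coe, mem_Ioc]
            obtain ⟨⟨h6, h7⟩, j, hj⟩ := hq
            constructor
            · change Q / p < q / p
              rw [hj, Nat.mul_div_cancel_left _ hpp.pos]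
              rw [Nat.div_lt_iff_lt_mul hpp.pos]
              rw [mul_comm, ← hj]
              exact h6
            · exact Nat.div_le_div_right h7
          · intro q hq q' hq' hqq
            rw [mem_coe, mem_filter] at hq hq'
            obtain ⟨_, j, hj⟩ := hq
            obtain ⟨_, j', hj'⟩ := hq'
            simp only [hj, hj', Nat.mul_div_cancel_left _ hpp.pos] at hqq
            rw [hj, hj', hqq]
        rw [Nat.card_Ioc] at h5
        have h6 : 2 * Q / p ≤ Q / p + Q / p + 1 := by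
          have : 2 * Q < p * (Q / p + Q / p + 2) := by
            have h7 := Nat.div_add_mod Q p
            have h8 := Nat.mod_lt Q hpp.pos
            nlinarith
          have h9 : 2 * Q / p < Q / p + Q / p + 2 := by
            rw [Nat.div_lt_iff_lt_mul hpp.pos]
            calc 2 * Q < p * (Q / p + Q / p + 2) := this
              _ = _ := mul_comm _ _
          exact Nat.lt_succ_iff.mp h9
        refine h5.trans ?_
        generalize 2 * Q / p = v at h6 ⊢
        generalize Q / p = u at h6 ⊢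
        omega
      have h5 : (((Ioc Q (2 * Q)).filter (fun q => p ∣ q)).card : ℝ) ≤ ((Q / p : ℕ) : ℝ) + 1 := by
        exact_mod_cast h4
      have h6 : ((Q / p : ℕ) : ℝ) ≤ Q / p := Nat.cast_div_le
      rw [rc_eq hpp.pos]
      calc (((Ioc Q (2 * Q)).filter (fun q => p ∣ q)).card : ℝ) ≤ Q / p + 1 := h5.trans (by linarith)
        _ = _ := by ring
    refine (sum_le_sum h3).trans ?_
    rw [sum_add_distrib, ← mul_sum, sum_const, nsmul_eq_mul, mul_one]
    have h7 : (Q : ℝ) * ∑ p ∈ A, rc p ≤ Q * (3 / 4) := mul_le_mul_of_nonneg_left hs hQ0.le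
    linarith
  have e2 : (((Ioc Q (2 * Q)).filter (Fr A)).card : ℝ) + (((Ioc Q (2 * Q)).filter (fun q => ¬ Fr A q)).card : ℝ) = Q := by
    have h2 := card_filter_add_card_filter_not (s := Ioc Q (2 * Q)) (Fr A)
    rw [Nat.card_Ioc] at h2
    have h3 : 2 * Q - Q = Q := by omega
    rw [h3] at h2
    exact_mod_cast h2
  have e3 : (Q : ℝ) / 8 ≤ ((Ioc Q (2 * Q)).filter (Fr A)).card := by linarith
  unfold TQ
  calc (1 : ℝ) / 16 = (Q : ℝ) / 8 * (1 / (2 * Q)) := by
        field_simp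
        norm_num
    _ ≤ ((Ioc Q (2 * Q)).filter (Fr A)).card * (1 / (2 * Q)) :=
        mul_le_mul_of_nonneg_right e3 (by positivity)
    _ = ∑ q ∈ (Ioc Q (2 * Q)).filter (Fr A), 1 / (2 * (Q : ℝ)) := by
        rw [sum_const, nsmul_eq_mul]
    _ ≤ _ := by
        refine sum_le_sum fun q hq => ?_
        rw [mem_filter, mem_Ioc] at hq
        have hq0 : (0 : ℝ) < q := by
          have : 0 < q := by omega
          exact_mod_cast this
        have h2 : (q : ℝ) ≤ 2 * Q := by exact_mod_cast hq.1.2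
        have h3 := one_le_gg h0 q
        calc 1 / (2 * (Q : ℝ)) ≤ 1 / (q : ℝ) := one_div_le_one_div_of_le hq0 h2
          _ ≤ gg h q * (1 / q) := by
              apply le_mul_of_one_le_left _ h3
              positivity

theorem asm2 (Ch c0 : ℝ) (hCh : 0 ≤ Ch) (hc0 : 0 < c0) (K : ℕ) :
    ∃ η₀ : ℝ, 0 < η₀ ∧ ∃ τ : ℝ, 0 < τ ∧ ∃ S0 : ℕ, 2 ≤ S0 ∧
      ∀ η : ℝ, 0 < η → η ≤ η₀ →
      ∀ (h : ℕ → ℝ) (A A' : Finset ℕ) (w X Q a S : ℕ) (W : ℕ → ℝ) (I : ℕ → ℝ) (lam C : ℝ),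
        (∀ p, p.Prime → 0 ≤ h p) →
        (∀ p, p.Prime → h p ≤ Ch / p) → (∀ p ∈ A, p.Prime ∧ w < p) → c0 ≤ ∑ p ∈ A, rc p →
        ∑ p ∈ A, rc p ≤ 1 / 2 → 2 * ((K : ℝ) + 1) ≤ c0 * w → 1 ≤ Q → S0 ≤ (X - a) / Q →
        (X - a) / Q < (w + 1) ^ (K + 1) → (X - a) / Q ≤ 2 * Q →
        ((A.card : ℝ) + 1) ^ K ≤ τ * (((X - a) / Q : ℕ) : ℝ) → (2 : ℝ) ^ A.card ≤ τ * Q →
        A ⊆ A' → (∀ p ∈ A', p.Prime) → (∀ p ∈ A', p ∉ A → S < p) → 1 ≤ S →
        (A'.card : ℝ) ≤ Q / 8 → (A'.card : ℝ) / S ≤ 1 / 4 →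
        (1 + Ch) * CR Ch * (1 + Real.log ((2 * Q : ℕ) : ℝ)) * ((A'.card : ℝ) / S) ≤ η / 16 →
        0 < lam → 0 < C → (∀ y : ℕ, Q ≤ y → y ≤ X → |I y - lam * y| ≤ η * (lam * y)) →
        a ≤ Q → (a : ℝ) ≤ τ * X → W a = 0 →
        (∀ q m : ℕ, Q < q → q ≤ 2 * Q → 1 ≤ m → m ≤ (X - a) / Q → W (a + q * m) ≠ 0 →
          Fr A' q ∧ Fr A m) →
        (∀ m y : ℕ, 1 ≤ m → m ≤ (X - a) / Q → Fr A m → Q ≤ y → y ≤ X →
          |cntW W y a m - C * (gg h m / m) * I y| ≤ η * (C * (gg h m / m) * I y)) →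
        η * ∑ q ∈ (Ioc Q (2 * Q)).filter (Fr A'), C * (gg h q / q) * I X ≤
          (-1) ^ K * (∑ q ∈ (Ioc Q (2 * Q)).filter (Fr A'), cntW W X a q -
            ∑ q ∈ (Ioc Q (2 * Q)).filter (Fr A'), C * (gg h q / q) * I X) := by
  obtain ⟨η₁, hη₁, τ, hτ, S0, hS0, hasm⟩ := asmW Ch c0 hCh hc0 K
  refine ⟨min (η₁ / 2) (1 / 2), lt_min (by positivity) (by norm_num), min τ 1, lt_min hτ one_pos,
    S0, hS0, ?_⟩
  intro η hη hηle h A A' w X Q a S W I lam C h0 h1 hA hs1 hs2 hwK hQ hM1 hMw hMQ hcK hc2 hAA hA' hbig hS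
    hcQ hcS hext hlam hC hI haQ haX hWa hW hsmall
  have hη1 : 2 * η ≤ η₁ := by
    have := hηle.trans (min_le_left _ _)
    linarith
  have hη2 : η ≤ 1 / 2 := hηle.trans (min_le_right _ _)
  have hQ0 : (0 : ℝ) < Q := by exact_mod_cast hQ
  have hX0 : (0 : ℝ) ≤ X := Nat.cast_nonneg _
  have haX1 : (a : ℝ) ≤ X := haX.trans (by
    calc min τ 1 * (X : ℝ) ≤ 1 * X := mul_le_mul_of_nonneg_right (min_le_right _ _) hX0
      _ = X := one_mul _)
  have haX' : a ≤ X := by exact_mod_cast haX1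
  have hQX : Q ≤ X := by
    have h2 : 1 ≤ (X - a) / Q := by omega
    have h3 : 1 * Q ≤ X - a := (Nat.le_div_iff_mul_le hQ).mp h2
    omega
  have hIX := hI X hQX le_rfl
  have hX1 : (0 : ℝ) < X := by
    have : 0 < X := by omega
    exact_mod_cast this
  have hIX0 : 0 ≤ I X := by
    have h2 := (abs_le.mp hIX).1
    have h3 : η * (lam * X) ≤ 1 / 2 * (lam * X) := mul_le_mul_of_nonneg_right hη2 (by positivity)
    have h4 : 0 ≤ lam * X := by positivity
    linarith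
  have hnn : ∀ y : ℕ, Q ≤ y → y ≤ X → 0 ≤ lam * (y : ℝ) := fun y _ _ =>
    mul_nonneg hlam.le (Nat.cast_nonneg _)
  have hgn : ∀ m : ℕ, 0 ≤ gg h m / (m : ℝ) := fun m =>
    div_nonneg (zero_le_one.trans (one_le_gg h0 m)) (Nat.cast_nonneg _)
  have hmain := hasm (2 * η) (by linarith) hη1 h A w X Q a W I lam C h0 h1 hA hs1 hs2 hwK hQ hM1 hMw hMQ
    (hcK.trans (mul_le_mul_of_nonneg_right (min_le_left _ _) (Nat.cast_nonneg _)))
    (hc2.trans (mul_le_mul_of_nonneg_right (min_le_left _ _) hQ0.le)) hlam hC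
    (fun y hy1 hy2 => (hI y hy1 hy2).trans (by
      have := hnn y hy1 hy2
      nlinarith)) haQ
    (haX.trans (mul_le_mul_of_nonneg_right (min_le_left _ _) hX0)) hWa
    (fun q m hq1 hq2 hm1 hm2 h5 => by
      obtain ⟨h6, h7⟩ := hW q m hq1 hq2 hm1 hm2 h5
      exact ⟨fun p hp => h6 p (hAA hp), h7⟩)
    (fun m y hm1 hm2 hF hy1 hy2 => (hsmall m y hm1 hm2 hF hy1 hy2).trans (by
      have h2 : 0 ≤ I y := by
        have h2 := (abs_le.mp (hI y hy1 hy2)).1
        have h3 : η * (lam * y) ≤ 1 / 2 * (lam * y) :=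
          mul_le_mul_of_nonneg_right hη2 (hnn y hy1 hy2)
        have h4 := hnn y hy1 hy2
        linarith
      have h3 : 0 ≤ C * (gg h m / m) * I y := mul_nonneg (mul_nonneg hC.le (hgn m)) h2
      nlinarith))
  -- the counts
  have hcnt1 := cntW_switch (W := W) (A := A) (A' := A) haQ hWa hQ haX'
    (fun q m hq1 hq2 hm1 hm2 h5 => by
      obtain ⟨h6, h7⟩ := hW q m hq1 hq2 hm1 hm2 h5
      exact ⟨fun p hp => h6 p (hAA hp), h7⟩)
  have hcnt2 := cntW_switch (W := W) (A := A) (A' := A') haQ hWa hQ haX' hW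
  have hcnt : ∑ q ∈ (Ioc Q (2 * Q)).filter (Fr A'), cntW W X a q =
      ∑ q ∈ (Ioc Q (2 * Q)).filter (Fr A), cntW W X a q := hcnt2.trans hcnt1.symm
  rw [hcnt]
  have hB : ∀ B : Finset ℕ, ∑ q ∈ (Ioc Q (2 * Q)).filter (Fr B), C * (gg h q / q) * I X =
      C * I X * TQ h B Q := by
    intro B
    unfold TQ
    rw [mul_sum]
    refine sum_congr rfl fun q _ => ?_
    ring
  rw [hB] at hmain ⊢
  obtain ⟨d1, d2⟩ := TQ_ext h0 h1 hCh hQ hS hAA hA' hbig
  have hs3 : ∑ p ∈ A', rc p ≤ 3 / 4 := by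
    classical
    have h2 : ∑ p ∈ A', rc p = ∑ p ∈ A, rc p + ∑ p ∈ A' \ A, rc p := by
      rw [add_comm]
      exact (sum_sdiff hAA).symm
    have h3 : ∑ p ∈ A' \ A, rc p ≤ (A'.card : ℝ) / S := by
      calc ∑ p ∈ A' \ A, rc p ≤ ∑ p ∈ A' \ A, (1 : ℝ) / S := by
            refine sum_le_sum fun p hp => ?_
            rw [mem_sdiff] at hp
            rw [rc_eq (hA' p hp.1).pos]
            apply one_div_le_one_div_of_le (by exact_mod_cast hS)
            exact_mod_cast (hbig p hp.1 hp.2).le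
        _ = ((A' \ A).card : ℝ) / S := by
            rw [sum_const, nsmul_eq_mul]
            ring
        _ ≤ _ := by
            apply div_le_div_of_nonneg_right _ (Nat.cast_nonneg _)
            exact_mod_cast card_le_card sdiff_subset
    rw [h2]
    linarith
  have hlow := TQ_low h0 hQ hA' hs3 hcQ
  set T := TQ h A Q
  set T' := TQ h A' Q
  set s : ℝ := (-1) ^ K with hsd
  have hsabs : |s| = 1 := by rw [hsd, abs_pow, abs_neg, abs_one, one_pow]
  set N := ∑ q ∈ (Ioc Q (2 * Q)).filter (Fr A), cntW W X a q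
  have hCI : 0 ≤ C * I X := mul_nonneg hC.le hIX0
  have k1 : T - T' ≤ η * T' := by
    have : η / 16 ≤ η * T' := by
      calc η / 16 = η * (1 / 16) := by ring
        _ ≤ _ := mul_le_mul_of_nonneg_left hlow hη.le
    linarith
  have k2 : C * I X * T - C * I X * T' ≤ η * (C * I X * T') := by
    calc C * I X * T - C * I X * T' = C * I X * (T - T') := by ring
      _ ≤ C * I X * (η * T') := mul_le_mul_of_nonneg_left k1 hCI
      _ = _ := by ring
  have k3 : 0 ≤ C * I X * T - C * I X * T' := by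
    have : C * I X * T - C * I X * T' = C * I X * (T - T') := by ring
    rw [this]
    exact mul_nonneg hCI d1
  have k4 : |s * (C * I X * T - C * I X * T')| ≤ η * (C * I X * T') := by
    rw [abs_mul, hsabs, one_mul, abs_of_nonneg k3]
    exact k2
  have k5 := (abs_le.mp k4).1
  have k6 : s * (N - C * I X * T') = s * (N - C * I X * T) + s * (C * I X * T - C * I X * T') := by ring
  rw [k6]
  have k7 : η * (C * I X * T') ≤ η * (C * I X * T) := mul_le_mul_of_nonneg_left (by linarith) hη.le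
  linarith

end Pool.Agent.H537.FT
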