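import Pool.Agent.H537.FG.An

/-! Switching the divisors `n = a + q m`, with weights. -/

set_option autoImplicit false
set_option maxHeartbeats 4000000

open Finset

namespace Pool.Agent.H537.FT

open Pool.Agent.H537.FG

/-- the sum of the weights of the `n ≤ X`, `n ≡ a (mod q)` -/
noncomputable def cntW (W : ℕ → ℝ) (X a q : ℕ) : ℝ := ∑ n ∈ (Icc 1 X).filter (fun n => n ≡ a [MOD q]), W n

/-- the weight of `a + q m` -/
noncomputable def indW (W : ℕ → ℝ) (X a q m : ℕ) : ℝ := if a + q * m ≤ X then W (a + q * m) else 0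

theorem cntW_q {W : ℕ → ℝ} {X a Q q : ℕ} (haQ : a ≤ Q) (hWa : W a = 0) (hQ : 1 ≤ Q) (hq : Q < q) :
    cntW W X a q = ∑ m ∈ Ioc 0 ((X - a) / Q), indW W X a q m := by
  unfold cntW indW
  rw [← sum_filter]
  symm
  -- remove `n = a`
  have h1 : ∑ n ∈ (Icc 1 X).filter (fun n => n ≡ a [MOD q]), W n =
      ∑ n ∈ ((Icc 1 X).filter (fun n => n ≡ a [MOD q])).filter (fun n => n ≠ a), W n := by
    symm
    apply sum_filter_of_ne
    intro n _ h0 hna
    rw [hna] at h0
    exact h0 hWa
  rw [h1]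
  apply Finset.sum_bij (fun m _ => a + q * m)
  · intro m hm
    rw [mem_filter, mem_Ioc] at hm
    rw [mem_filter, mem_filter, mem_Icc]
    obtain ⟨⟨h1, _⟩, h2⟩ := hm
    have h3 : 1 ≤ q * m := Nat.mul_pos (by omega) h1
    refine ⟨⟨⟨?_, h2⟩, ?_⟩, ?_⟩
    · omega
    · unfold Nat.ModEq
      simp
    · omega
  · intro m _ m' _ h
    have h1 : q * m = q * m' := by omega
    exact Nat.eq_of_mul_eq_mul_left (by omega) h1
  · intro n hn
    rw [mem_filter, mem_filter, mem_Icc] at hn
    obtain ⟨⟨⟨h1, h2⟩, h3⟩, h4⟩ := hn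
    unfold Nat.ModEq at h3
    rw [Nat.mod_eq_of_lt (show a < q by omega)] at h3
    have h5 : n = a + q * (n / q) := by
      have := Nat.mod_add_div n q
      omega
    have h6 : 0 < n / q := by
      rcases Nat.eq_zero_or_pos (n / q) with h | h
      · exfalso
        rw [h, mul_zero, add_zero] at h5
        exact h4 h5
      · exact h
    refine ⟨n / q, ?_, h5.symm⟩
    rw [mem_filter, mem_Ioc, ← h5]
    refine ⟨⟨h6, ?_⟩, h2⟩
    rw [Nat.le_div_iff_mul_le hQ]
    have h7 : n / q * Q ≤ q * (n / q) := by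
      rw [mul_comm]
      exact Nat.mul_le_mul_right _ hq.le
    omega
  · intro m _
    rfl

theorem cntW_m {W : ℕ → ℝ} {X a Q m : ℕ} (hm : 1 ≤ m) (hmX : a + m * Q ≤ X) :
    cntW W (min (a + 2 * (m * Q)) X) a m - cntW W (a + m * Q) a m =
      ∑ q ∈ Ioc Q (2 * Q), indW W X a q m := by
  have h1 : cntW W (min (a + 2 * (m * Q)) X) a m = cntW W (a + m * Q) a m +
      ∑ n ∈ (Ioc (a + m * Q) (min (a + 2 * (m * Q)) X)).filter (fun n => n ≡ a [MOD m]), W n := by
    unfold cntW
    rw [← sum_union]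
    · congr 1
      rw [← filter_union]
      congr 1
      ext n
      rw [mem_union, mem_Icc, mem_Icc, mem_Ioc]
      omega
    · rw [disjoint_left]
      intro n h2 h3
      rw [mem_filter, mem_Icc] at h2
      rw [mem_filter, mem_Ioc] at h3
      omega
  rw [h1, add_sub_cancel_left]
  unfold indW
  rw [← sum_filter]
  symm
  apply Finset.sum_bij (fun q _ => a + q * m)
  · intro q hq
    rw [mem_filter, mem_Ioc] at hq
    rw [mem_filter, mem_Ioc]
    obtain ⟨⟨h2, h3⟩, h4⟩ := hq
    refine ⟨⟨?_, ?_⟩, ?_⟩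
    · have : m * Q < q * m := by
        rw [mul_comm]
        exact Nat.mul_lt_mul_of_pos_right h2 hm
      omega
    · apply le_min _ h4
      have : q * m ≤ 2 * (m * Q) := by
        calc q * m ≤ (2 * Q) * m := Nat.mul_le_mul_right _ h3
          _ = _ := by ring
      omega
    · unfold Nat.ModEq
      simp
  · intro q _ q' _ h
    have h2 : q * m = q' * m := by omega
    exact Nat.eq_of_mul_eq_mul_right hm h2
  · intro n hn
    rw [mem_filter, mem_Ioc] at hn
    obtain ⟨⟨h2, h3⟩, h4⟩ := hn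
    have h6 : a ≤ n := by omega
    have h7 : m ∣ n - a := (Nat.modEq_iff_dvd' h6).mp h4.symm
    obtain ⟨q, hq⟩ := h7
    have h8 : a + q * m = n := by
      rw [mul_comm q m]
      omega
    refine ⟨q, ?_, h8⟩
    rw [mem_filter, mem_Ioc, h8]
    have h9 := h3.trans (min_le_left _ _)
    have h10 := h3.trans (min_le_right _ _)
    refine ⟨⟨?_, ?_⟩, h10⟩
    · by_contra hc
      push Not at hc
      have : q * m ≤ m * Q := by
        rw [mul_comm m Q]
        exact Nat.mul_le_mul_right _ hc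
      omega
    · by_contra hc
      push Not at hc
      have : 2 * (m * Q) < q * m := by
        calc 2 * (m * Q) = (2 * Q) * m := by ring
          _ < q * m := Nat.mul_lt_mul_of_pos_right hc hm
      omega
  · intro q _
    rfl

theorem cntW_switch {W : ℕ → ℝ} {X a Q : ℕ} {A A' : Finset ℕ} (haQ : a ≤ Q) (hWa : W a = 0) (hQ : 1 ≤ Q)
    (haX : a ≤ X)
    (hW : ∀ q m : ℕ, Q < q → q ≤ 2 * Q → 1 ≤ m → m ≤ (X - a) / Q → W (a + q * m) ≠ 0 →
      Fr A' q ∧ Fr A m) :
    ∑ q ∈ (Ioc Q (2 * Q)).filter (Fr A'), cntW W X a q =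
      ∑ m ∈ (Ioc 0 ((X - a) / Q)).filter (Fr A),
        (cntW W (min (a + 2 * (m * Q)) X) a m - cntW W (a + m * Q) a m) := by
  classical
  set M := (X - a) / Q with hM
  have h1 : ∑ q ∈ (Ioc Q (2 * Q)).filter (Fr A'), cntW W X a q =
      ∑ q ∈ Ioc Q (2 * Q), ∑ m ∈ Ioc 0 M, indW W X a q m := by
    rw [sum_filter]
    refine sum_congr rfl fun q hq => ?_
    rw [mem_Ioc] at hq
    split_ifs with hf
    · exact cntW_q haQ hWa hQ hq.1
    · symm
      apply sum_eq_zero
      intro m hm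
      rw [mem_Ioc] at hm
      unfold indW
      split_ifs with h3
      · by_contra h0
        exact hf (hW q m hq.1 hq.2 hm.1 hm.2 h0).1
      · rfl
  have h2 : ∑ m ∈ (Ioc 0 M).filter (Fr A),
        (cntW W (min (a + 2 * (m * Q)) X) a m - cntW W (a + m * Q) a m) =
      ∑ m ∈ Ioc 0 M, ∑ q ∈ Ioc Q (2 * Q), indW W X a q m := by
    rw [sum_filter]
    refine sum_congr rfl fun m hm => ?_
    rw [mem_Ioc] at hm
    have hmX : a + m * Q ≤ X := by
      have : m * Q ≤ X - a := (Nat.le_div_iff_mul_le hQ).mp hm.2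
      omega
    split_ifs with hf
    · exact cntW_m hm.1 hmX
    · symm
      apply sum_eq_zero
      intro q hq
      rw [mem_Ioc] at hq
      unfold indW
      split_ifs with h3
      · by_contra h0
        exact hf (hW q m hq.1 hq.2 hm.1 hm.2 h0).2
      · rfl
  rw [h1, h2, sum_comm]

end Pool.Agent.H537.FT
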