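import Pool.Agent.H537.FG.Main
import Pool.Agent.H537.FT.CntW

/-! Assembly: a formula which is uniform in the small moduli is false for the large ones. -/

set_option autoImplicit false
set_option maxHeartbeats 4000000

open Finset

namespace Pool.Agent.H537.FT

open Pool.Agent.H537.FG

open Pool.Agent.N914.MR

theorem asmW (Ch c0 : ℝ) (hCh : 0 ≤ Ch) (hc0 : 0 < c0) (K : ℕ) :
    ∃ η₀ : ℝ, 0 < η₀ ∧ ∃ τ : ℝ, 0 < τ ∧ ∃ S0 : ℕ, 2 ≤ S0 ∧
      ∀ η : ℝ, 0 < η → η ≤ η₀ →
      ∀ (h : ℕ → ℝ) (A : Finset ℕ) (w X Q a : ℕ) (W : ℕ → ℝ) (I : ℕ → ℝ) (lam C : ℝ),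
        (∀ p, p.Prime → 0 ≤ h p) →
        (∀ p, p.Prime → h p ≤ Ch / p) → (∀ p ∈ A, p.Prime ∧ w < p) → c0 ≤ ∑ p ∈ A, rc p →
        ∑ p ∈ A, rc p ≤ 1 / 2 → 2 * ((K : ℝ) + 1) ≤ c0 * w → 1 ≤ Q → S0 ≤ (X - a) / Q →
        (X - a) / Q < (w + 1) ^ (K + 1) → (X - a) / Q ≤ 2 * Q →
        ((A.card : ℝ) + 1) ^ K ≤ τ * (((X - a) / Q : ℕ) : ℝ) → (2 : ℝ) ^ A.card ≤ τ * Q →
        0 < lam → 0 < C → (∀ y : ℕ, Q ≤ y → y ≤ X → |I y - lam * y| ≤ η * (lam * y)) →
        a ≤ Q → (a : ℝ) ≤ τ * X → W a = 0 →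
        (∀ q m : ℕ, Q < q → q ≤ 2 * Q → 1 ≤ m → m ≤ (X - a) / Q → W (a + q * m) ≠ 0 →
          Fr A q ∧ Fr A m) →
        (∀ m y : ℕ, 1 ≤ m → m ≤ (X - a) / Q → Fr A m → Q ≤ y → y ≤ X →
          |cntW W y a m - C * (gg h m / m) * I y| ≤ η * (C * (gg h m / m) * I y)) →
        η * ∑ q ∈ (Ioc Q (2 * Q)).filter (Fr A), C * (gg h q / q) * I X ≤
          (-1) ^ K * (∑ q ∈ (Ioc Q (2 * Q)).filter (Fr A), cntW W X a q -
            ∑ q ∈ (Ioc Q (2 * Q)).filter (Fr A), C * (gg h q / q) * I X) := by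
  obtain ⟨c2, hc2, τ, hτ, S0, hS0, han⟩ := an Ch c0 hCh hc0 K
  set r := CR Ch with hr
  have hr0 : 0 < r := CR_pos Ch
  set η₀ : ℝ := min 1 (c2 / (168 * r)) with hη₀
  have hη₀0 : 0 < η₀ := by
    rw [hη₀]
    apply lt_min <;> positivity
  set κ : ℝ := min (1 / 2) (c2 / (12 * r)) with hκ
  have hκ0 : 0 < κ := by
    rw [hκ]
    apply lt_min <;> positivity
  refine ⟨η₀, hη₀0, min τ κ, lt_min hτ hκ0, S0, hS0, ?_⟩
  intro η hη hηle h A w X Q a W I lam C h0 h1 hA hs1 hs2 hwK hQ hS hXw hXQ hcard hcard2 hlam hC hI haQ haX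
    hRa hR hsmall
  have hη1 : η ≤ 1 := hηle.trans (min_le_left _ _)
  have hη2 : η ≤ c2 / (168 * r) := hηle.trans (min_le_right _ _)
  have hη2' : 168 * r * η ≤ c2 := by
    rw [le_div_iff₀ (by positivity)] at hη2
    linarith
  have hM0 : (0 : ℝ) ≤ (((X - a) / Q : ℕ) : ℝ) := Nat.cast_nonneg _
  have hQ0 : (0 : ℝ) < Q := by exact_mod_cast hQ
  have hX0 : (0 : ℝ) ≤ X := Nat.cast_nonneg _
  have ha0 : (0 : ℝ) ≤ a := Nat.cast_nonneg _
  have haκ : (a : ℝ) ≤ κ * X := haX.trans (mul_le_mul_of_nonneg_right (min_le_right _ _) hX0)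
  have haX2 : (a : ℝ) ≤ 1 / 2 * X := haκ.trans (mul_le_mul_of_nonneg_right (min_le_left _ _) hX0)
  have haX' : a ≤ X := by
    have : (a : ℝ) ≤ X := by linarith
    exact_mod_cast this
  have hAp : ∀ p ∈ A, p.Prime := fun p hp => (hA p hp).1
  have k1 := han h A w (X - a) Q h0 h1 hA hs1 hs2 hwK hQ hS hXw hXQ
    (hcard.trans (mul_le_mul_of_nonneg_right (min_le_left _ _) hM0))
    (hcard2.trans (mul_le_mul_of_nonneg_right (min_le_left _ _) hQ0.le))
  set s : ℝ := (-1) ^ K with hsd
  have hsabs : |s| = 1 := by rw [hsd, abs_pow, abs_neg, abs_one, one_pow]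
  have hXa : ((X - a : ℕ) : ℝ) = X - a := by
    push_cast [haX']
    ring
  have hT3 := TQ_le h0 h1 hCh A hAp hQ
  have hT0 : 0 ≤ TQ h A Q := by
    unfold TQ
    exact sum_nonneg fun q _ => mul_nonneg (zero_le_one.trans (one_le_gg h0 q)) (by positivity)
  rw [← hr] at hT3
  set M := (X - a) / Q with hMd
  have hsw := cntW_switch (W := W) (A := A) (A' := A) haQ hRa hQ haX' hR
  have hMX : (M : ℝ) * Q ≤ X := by
    have e1 : M * Q ≤ X - a := Nat.div_mul_le_self _ Q
    have e2 : M * Q ≤ X := e1.trans (Nat.sub_le _ _)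
    exact_mod_cast e2
  -- one modulus
  have hone : ∀ m ∈ (Ioc 0 M).filter (Fr A),
      |(cntW W (min (a + 2 * (m * Q)) X) a m - cntW W (a + m * Q) a m) -
        C * lam * (gg h m * wt Q (X - a) m)| ≤ 18 * η * C * lam * Q * gg h m := by
    intro m hm
    rw [mem_filter, mem_Ioc] at hm
    obtain ⟨⟨hm1, hmM⟩, hmF⟩ := hm
    have hm1' : 1 ≤ m := hm1
    have hm0 : (0 : ℝ) < m := by exact_mod_cast hm1
    have hm1'' : (1 : ℝ) ≤ m := by exact_mod_cast hm1'
    have hg1 := one_le_gg h0 m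
    have hg0 : 0 < gg h m := by linarith
    have hmQX : a + m * Q ≤ X := by
      have : m * Q ≤ X - a := (Nat.le_div_iff_mul_le hQ).mp hmM
      omega
    have hy : ∀ y : ℕ, Q ≤ y → y ≤ X → y ≤ 3 * (m * Q) →
        |cntW W y a m - C * lam * (gg h m / m) * y| ≤ 9 * η * C * lam * Q * gg h m := by
      intro y hy1 hy2 hy3
      have b1 := hsmall m y hm1' hmM hmF hy1 hy2
      have b2 := hI y hy1 hy2
      have hy0 : (0 : ℝ) ≤ y := Nat.cast_nonneg _
      have b3 : I y ≤ 2 * (lam * y) := by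
        have := (abs_le.mp b2).2
        have : η * (lam * y) ≤ 1 * (lam * y) := mul_le_mul_of_nonneg_right hη1 (by positivity)
        linarith
      have hCg : 0 ≤ C * (gg h m / m) := by positivity
      have b4 : η * (C * (gg h m / m) * I y) ≤ 2 * η * (C * (gg h m / m) * (lam * y)) := by
        calc η * (C * (gg h m / m) * I y) = (η * (C * (gg h m / m))) * I y := by ring
          _ ≤ (η * (C * (gg h m / m))) * (2 * (lam * y)) := mul_le_mul_of_nonneg_left b3 (by positivity)
          _ = _ := by ring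
      have b5 : |C * (gg h m / m) * I y - C * lam * (gg h m / m) * y| ≤
          η * (C * (gg h m / m) * (lam * y)) := by
        have : C * (gg h m / m) * I y - C * lam * (gg h m / m) * y =
            C * (gg h m / m) * (I y - lam * y) := by ring
        rw [this, abs_mul, abs_of_nonneg hCg]
        calc C * (gg h m / m) * |I y - lam * y| ≤ C * (gg h m / m) * (η * (lam * y)) :=
              mul_le_mul_of_nonneg_left b2 hCg
          _ = _ := by ring
      have b6 : |cntW W y a m - C * lam * (gg h m / m) * y| ≤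
          3 * η * (C * (gg h m / m) * (lam * y)) := by
        have := abs_sub_le (cntW W y a m) (C * (gg h m / m) * I y) (C * lam * (gg h m / m) * y)
        linarith
      refine b6.trans ?_
      have b7 : (y : ℝ) ≤ 3 * (m * Q) := by exact_mod_cast hy3
      calc 3 * η * (C * (gg h m / m) * (lam * y)) = (3 * η * C * lam * (gg h m / m)) * y := by ring
        _ ≤ (3 * η * C * lam * (gg h m / m)) * (3 * (m * Q)) :=
            mul_le_mul_of_nonneg_left b7 (by positivity)
        _ = 9 * η * C * lam * Q * gg h m := by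
            field_simp
            ring
    have hmQ : Q ≤ m * Q := Nat.le_mul_of_pos_left Q hm1
    have c1 := hy (a + m * Q) (by omega) hmQX (by omega)
    have c2 := hy (min (a + 2 * (m * Q)) X) (by
      apply le_min
      · omega
      · omega) (min_le_right _ _) ((min_le_left _ _).trans (by omega))
    have c3 : C * lam * (gg h m * wt Q (X - a) m) =
        C * lam * (gg h m / m) * ((min (a + 2 * (m * Q)) X : ℕ) : ℝ) -
          C * lam * (gg h m / m) * ((a + m * Q : ℕ) : ℝ) := by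
      have d1 : wt Q (X - a) m = (((min (a + 2 * (m * Q)) X : ℕ) : ℝ) - ((a + m * Q : ℕ) : ℝ)) / m := by
        unfold wt
        rw [hXa]
        push_cast
        rcases le_total ((a : ℝ) + 2 * (m * Q)) X with hc | hc
        · rw [min_eq_left hc]
          rw [min_eq_left]
          · field_simp
            ring
          · rw [le_sub_iff_add_le, le_div_iff₀ hm0]
            linarith
        · rw [min_eq_right hc]
          rw [min_eq_right]
          · field_simp
            ring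
          · rw [sub_le_iff_le_add, div_le_iff₀ hm0]
            linarith
      rw [d1]
      ring
    rw [c3]
    have c4 : (cntW W (min (a + 2 * (m * Q)) X) a m - cntW W (a + m * Q) a m) -
        (C * lam * (gg h m / m) * ((min (a + 2 * (m * Q)) X : ℕ) : ℝ) -
          C * lam * (gg h m / m) * ((a + m * Q : ℕ) : ℝ)) =
        (cntW W (min (a + 2 * (m * Q)) X) a m -
          C * lam * (gg h m / m) * ((min (a + 2 * (m * Q)) X : ℕ) : ℝ)) -
        (cntW W (a + m * Q) a m - C * lam * (gg h m / m) * ((a + m * Q : ℕ) : ℝ)) := by ring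
    rw [c4]
    refine (abs_sub _ _).trans ?_
    linarith
  -- the sum over the small factor
  have hsum : |∑ m ∈ (Ioc 0 M).filter (Fr A),
        (cntW W (min (a + 2 * (m * Q)) X) a m - cntW W (a + m * Q) a m) -
        C * lam * WM h A Q (X - a)| ≤ 18 * η * C * lam * r * X := by
    have e1 : C * lam * WM h A Q (X - a) =
        ∑ m ∈ (Ioc 0 M).filter (Fr A), C * lam * (gg h m * wt Q (X - a) m) := by
      unfold WM
      rw [mul_sum]
    rw [e1, ← sum_sub_distrib]
    refine (abs_sum_le_sum_abs _ _).trans ((sum_le_sum hone).trans ?_)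
    rw [← mul_sum]
    have e2 := GS_le h0 h1 hCh A hAp M
    unfold GS at e2
    calc 18 * η * C * lam * Q * ∑ m ∈ (Ioc 0 M).filter (Fr A), gg h m ≤
        18 * η * C * lam * Q * (r * M) := mul_le_mul_of_nonneg_left e2 (by positivity)
      _ = 18 * η * C * lam * r * (M * Q) := by ring
      _ ≤ _ := mul_le_mul_of_nonneg_left hMX (by positivity)
  rw [← hsw] at hsum
  -- the main terms
  have hB : ∑ q ∈ (Ioc Q (2 * Q)).filter (Fr A), C * (gg h q / q) * I X = C * I X * TQ h A Q := by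
    unfold TQ
    rw [mul_sum]
    refine sum_congr rfl fun q _ => ?_
    ring
  rw [hB]
  have hQX : Q ≤ X := by
    have h2 : 1 ≤ M := by omega
    have h3 : 1 * Q ≤ X - a := (Nat.le_div_iff_mul_le hQ).mp h2
    omega
  have hIX := hI X hQX le_rfl
  have hB1 : |C * I X * TQ h A Q - C * lam * (X * TQ h A Q)| ≤ 3 * r * η * C * lam * X := by
    have e1 : C * I X * TQ h A Q - C * lam * (X * TQ h A Q) = C * TQ h A Q * (I X - lam * X) := by ring
    rw [e1, abs_mul, abs_of_nonneg (by positivity)]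
    calc C * TQ h A Q * |I X - lam * X| ≤ C * (3 * r) * (η * (lam * X)) := by
          apply mul_le_mul _ hIX (abs_nonneg _) (by positivity)
          exact mul_le_mul_of_nonneg_left hT3 hC.le
      _ = _ := by ring
  rw [hXa] at k1
  have k2 : c2 / 4 * X ≤ s * (WM h A Q (X - a) - X * TQ h A Q) := by
    have e1 : s * (WM h A Q (X - a) - X * TQ h A Q) =
        s * (WM h A Q (X - a) - (X - a) * TQ h A Q) - s * (a * TQ h A Q) := by ring
    have e2 : |s * (a * TQ h A Q)| ≤ a * (3 * r) := by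
      rw [abs_mul, hsabs, one_mul, abs_of_nonneg (by positivity)]
      exact mul_le_mul_of_nonneg_left hT3 ha0
    have e3 := (abs_le.mp e2).2
    have e4 : (a : ℝ) * (3 * r) ≤ c2 / 4 * X := by
      have g1 : κ ≤ c2 / (12 * r) := min_le_right _ _
      have g2 : (a : ℝ) ≤ c2 / (12 * r) * X := haκ.trans (mul_le_mul_of_nonneg_right g1 hX0)
      calc (a : ℝ) * (3 * r) ≤ c2 / (12 * r) * X * (3 * r) :=
            mul_le_mul_of_nonneg_right g2 (by positivity)
        _ = c2 / 4 * X := by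
            field_simp
            ring
    have e5 : c2 * (1 / 2 * X) ≤ c2 * (X - a) := mul_le_mul_of_nonneg_left (by linarith) hc2.le
    rw [e1]
    linarith
  set S1 : ℝ := ∑ q ∈ (Ioc Q (2 * Q)).filter (Fr A), cntW W X a q with hS1
  have key : s * (S1 - C * I X * TQ h A Q) = s * (S1 - C * lam * WM h A Q (X - a)) +
      C * lam * (s * (WM h A Q (X - a) - X * TQ h A Q)) -
      s * (C * I X * TQ h A Q - C * lam * (X * TQ h A Q)) := by ring
  rw [key]
  have f1 : |s * (S1 - C * lam * WM h A Q (X - a))| ≤ 18 * η * C * lam * r * X := by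
    rw [abs_mul, hsabs, one_mul]
    exact hsum
  have f2 : |s * (C * I X * TQ h A Q - C * lam * (X * TQ h A Q))| ≤ 3 * r * η * C * lam * X := by
    rw [abs_mul, hsabs, one_mul]
    exact hB1
  have f3 := (abs_le.mp f1).1
  have f4 := (abs_le.mp f2).2
  have f5 : C * lam * (c2 / 4 * X) ≤ C * lam * (s * (WM h A Q (X - a) - X * TQ h A Q)) :=
    mul_le_mul_of_nonneg_left k2 (by positivity)
  have f6 : η * (C * I X * TQ h A Q) ≤ 6 * r * η * C * lam * X := by
    have g1 : I X ≤ 2 * (lam * X) := by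
      have := (abs_le.mp hIX).2
      have : η * (lam * X) ≤ 1 * (lam * X) := mul_le_mul_of_nonneg_right hη1 (by positivity)
      linarith
    have g2 : C * I X * TQ h A Q ≤ C * (2 * (lam * X)) * (3 * r) := by
      apply mul_le_mul _ hT3 hT0 (by positivity)
      exact mul_le_mul_of_nonneg_left g1 hC.le
    calc η * (C * I X * TQ h A Q) ≤ η * (C * (2 * (lam * X)) * (3 * r)) :=
          mul_le_mul_of_nonneg_left g2 hη.le
      _ = _ := by ring
  have f7 : 168 * r * η * (C * lam * X) ≤ c2 * (C * lam * X) :=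
    mul_le_mul_of_nonneg_right hη2' (by positivity)
  have f8 : 0 ≤ r * η * C * lam * X := by positivity
  nlinarith

end Pool.Agent.H537.FT
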