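import Pool.Agent.H537.FT.Ext
import Pool.Graph.R_pool_sql_team_seeded_620a6dc7.H735K.FlcK

/-! The polynomial `x (x + h 1) ... (x + h k)` and the choice of the residue class. -/

set_option autoImplicit false
set_option maxHeartbeats 4000000

open Finset

namespace Pool.Agent.H537.FT

open Pool.Agent.H537.FG Pool.Agent.N914.MR

/-- the polynomial `x (x + h 1) ... (x + h k)` -/
def form {k : ℕ} (h : Fin k → ℕ) (x : ℕ) : ℕ := x * ∏ i, (x + h i)

/-- the number of the residues `r` modulo `p` with `p ∣ r (r + h 1) ... (r + h k)` -/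
def nu {k : ℕ} (h : Fin k → ℕ) (p : ℕ) : ℕ := ((range p).filter (fun r => p ∣ form h r)).card

/-- the number of the residues `r` modulo `q` with `r (r + h 1) ... (r + h k)` coprime to `q` -/
def phi {k : ℕ} (h : Fin k → ℕ) (q : ℕ) : ℕ := ((range q).filter (fun r => (form h r).Coprime q)).card

/-- the weights -/
noncomputable def hv {k : ℕ} (h : Fin k → ℕ) (p : ℕ) : ℝ := (nu h p : ℝ) / ((p : ℝ) - nu h p)

theorem form_dvd {k : ℕ} (h : Fin k → ℕ) {p : ℕ} (hp : p.Prime) (x : ℕ) :
    p ∣ form h x ↔ p ∣ x ∨ ∃ i, p ∣ x + h i := by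
  unfold form
  rw [hp.dvd_mul, (Nat.prime_iff.mp hp).dvd_finsetProd_iff]
  simp

theorem form_congr {k : ℕ} (h : Fin k → ℕ) {m x y : ℕ} (hxy : x ≡ y [MOD m]) :
    form h x ≡ form h y [MOD m] := by
  unfold form
  apply Nat.ModEq.mul hxy
  rw [← ZMod.natCast_eq_natCast_iff] at hxy ⊢
  push_cast
  rw [hxy]

theorem nu_le {k : ℕ} (h : Fin k → ℕ) {p : ℕ} (hp : p.Prime) : nu h p ≤ k + 1 := by
  classical
  unfold nu
  have h1 : (range p).filter (fun r => p ∣ form h r) ⊆
      (range p).filter (fun r => p ∣ r) ∪ univ.biUnion fun i : Fin k => (range p).filter (fun r => p ∣ r + h i) := by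
    intro r hr
    rw [mem_filter] at hr
    rcases (form_dvd h hp r).mp hr.2 with h2 | ⟨i, h2⟩
    · exact mem_union_left _ (mem_filter.mpr ⟨hr.1, h2⟩)
    · exact mem_union_right _ (mem_biUnion.mpr ⟨i, mem_univ _, mem_filter.mpr ⟨hr.1, h2⟩⟩)
  have h2 : ∀ s : ℕ, ((range p).filter (fun r => p ∣ r + s)).card ≤ 1 := by
    intro s
    rw [card_le_one]
    intro a ha b hb
    rw [mem_filter, mem_range] at ha hb
    have h3 : a + s ≡ b + s [MOD p] := by
      have e1 := (Nat.modEq_zero_iff_dvd.mpr ha.2)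
      have e2 := (Nat.modEq_zero_iff_dvd.mpr hb.2)
      exact e1.trans e2.symm
    exact Nat.ModEq.eq_of_lt_of_lt (Nat.ModEq.add_right_cancel' s h3) ha.1 hb.1
  calc ((range p).filter (fun r => p ∣ form h r)).card ≤ _ := card_le_card h1
    _ ≤ ((range p).filter (fun r => p ∣ r)).card +
        (univ.biUnion fun i : Fin k => (range p).filter (fun r => p ∣ r + h i)).card := card_union_le _ _
    _ ≤ 1 + ∑ i : Fin k, 1 := by
        apply add_le_add
        · have := h2 0
          simpa using this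
        · exact card_biUnion_le.trans (sum_le_sum fun i _ => h2 (h i))
    _ = k + 1 := by
        simp
        ring

theorem hv_nonneg {k : ℕ} {h : Fin k → ℕ} {p : ℕ} (hp : nu h p < p) : 0 ≤ hv h p := by
  unfold hv
  have : (nu h p : ℝ) < p := by exact_mod_cast hp
  exact div_nonneg (Nat.cast_nonneg _) (by linarith)

theorem hv_le {k : ℕ} {h : Fin k → ℕ} {p : ℕ} (hp : p.Prime) (hlt : nu h p < p) :
    hv h p ≤ 2 * ((k : ℝ) + 1) ^ 2 / p := by
  unfold hv
  have h1 : (nu h p : ℝ) + 1 ≤ p := by exact_mod_cast hlt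
  have h0 : (0 : ℝ) ≤ nu h p := Nat.cast_nonneg _
  have hp0 : (0 : ℝ) < p := by linarith
  set D : ℝ := (k : ℝ) + 1 with hD
  have hD1 : (1 : ℝ) ≤ D := by
    have : (0 : ℝ) ≤ k := Nat.cast_nonneg _
    linarith
  have h2 : (nu h p : ℝ) ≤ D := by
    rw [hD]
    exact_mod_cast nu_le h hp
  rw [div_le_div_iff₀ (by linarith) hp0]
  by_cases hc : (p : ℝ) ≤ 2 * D
  · calc (nu h p : ℝ) * p ≤ D * (2 * D) := mul_le_mul h2 hc hp0.le (by linarith)
      _ = 2 * (D : ℝ) ^ 2 * 1 := by ring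
      _ ≤ _ := mul_le_mul_of_nonneg_left (by linarith) (by positivity)
  · push Not at hc
    have h3 : (p : ℝ) / 2 ≤ p - nu h p := by linarith
    calc (nu h p : ℝ) * p ≤ D * p := mul_le_mul_of_nonneg_right h2 hp0.le
      _ ≤ D ^ 2 * p := by
          apply mul_le_mul_of_nonneg_right _ hp0.le
          nlinarith
      _ = 2 * (D : ℝ) ^ 2 * (p / 2) := by ring
      _ ≤ _ := mul_le_mul_of_nonneg_left h3 (by positivity)

theorem phi_eq {k : ℕ} (h : Fin k → ℕ) {q : ℕ} (hq : 1 ≤ q) :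
    (phi h q : ℝ) = q * ∏ p ∈ q.primeFactors, (1 - (nu h p : ℝ) / p) := by
  have hF : Pool.Agent.H735K.Per (fun x : ℤ => x * ∏ i, (x + (h i : ℤ))) := by
    intro p x y hxy
    rw [← ZMod.intCast_eq_intCast_iff] at hxy ⊢
    push_cast
    rw [hxy]
  have hc : ∀ x : ℕ, ((x : ℤ) * ∏ i, ((x : ℤ) + (h i : ℤ))) = ((form h x : ℕ) : ℤ) := by
    intro x
    unfold form
    push_cast
    rfl
  have h1 := Pool.Agent.H735K.phF_eq hF q hq
  have h2 : Pool.Agent.H735K.phF (fun x : ℤ => x * ∏ i, (x + (h i : ℤ))) q = phi h q := by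
    unfold Pool.Agent.H735K.phF phi
    apply congrArg
    apply filter_congr
    intro r _
    change Int.gcd ((r : ℤ) * ∏ i, ((r : ℤ) + (h i : ℤ))) q = 1 ↔ _
    rw [hc, Int.gcd_natCast_natCast]
  rw [h2] at h1
  rw [h1]
  congr 1
  refine prod_congr rfl fun p _ => ?_
  congr 2
  unfold Pool.Agent.H735K.rho nu
  norm_cast
  apply congrArg
  apply filter_congr
  intro r _
  change ((p : ℤ) ∣ ((r : ℤ) * ∏ i, ((r : ℤ) + (h i : ℤ)))) ↔ _
  rw [hc, Int.natCast_dvd_natCast]

theorem gg_hv {k : ℕ} {h : Fin k → ℕ} (hadm : ∀ p : ℕ, p.Prime → nu h p < p) {q : ℕ} (hq : 1 ≤ q) :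
    gg (hv h) q / q = 1 / (phi h q : ℝ) := by
  have hq0 : (q : ℝ) ≠ 0 := by
    have : q ≠ 0 := by omega
    exact_mod_cast this
  rw [phi_eq h hq]
  unfold gg hv
  rw [one_div, mul_inv, ← prod_inv_distrib, div_eq_mul_inv, mul_comm]
  congr 1
  refine prod_congr rfl fun p hp => ?_
  have hlt := hadm p (Nat.prime_of_mem_primeFactors hp)
  have h1 : (nu h p : ℝ) < p := by exact_mod_cast hlt
  have h0 : (0 : ℝ) ≤ nu h p := Nat.cast_nonneg _
  have hp0 : (p : ℝ) ≠ 0 := by linarith
  have h2 : (p : ℝ) - nu h p ≠ 0 := by linarith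
  rw [show (1 : ℝ) - (nu h p : ℝ) / p = (p - nu h p) / p by field_simp, inv_div]
  field_simp
  ring

/-- the solutions of a linear congruence -/
theorem lin_count {p : ℕ} (hp : p.Prime) {P : ℕ} (hP : ¬ p ∣ P) (c S : ℕ) :
    ((Icc 1 S).filter (fun j => p ∣ c + P * j)).card ≤ S / p + 1 := by
  have hco : Nat.Coprime p P := (Nat.Prime.coprime_iff_not_dvd hp).mpr hP
  calc ((Icc 1 S).filter (fun j => p ∣ c + P * j)).card ≤ (range (S / p + 1)).card := by
        apply card_le_card_of_injOn (fun j => j / p)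
        · intro j hj
          rw [mem_coe, mem_filter, mem_Icc] at hj
          rw [mem_coe, mem_range]
          exact Nat.lt_succ_of_le (Nat.div_le_div_right hj.1.2)
        · intro j hj j' hj' hjj
          rw [mem_coe, mem_filter] at hj hj'
          have h1 : c + P * j ≡ c + P * j' [MOD p] :=
            (Nat.modEq_zero_iff_dvd.mpr hj.2).trans (Nat.modEq_zero_iff_dvd.mpr hj'.2).symm
          have h2 : P * j ≡ P * j' [MOD p] := Nat.ModEq.add_left_cancel' c h1
          have h3 : j ≡ j' [MOD p] := Nat.ModEq.cancel_left_of_coprime hco h2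
          have h4 : j % p = j' % p := h3
          have h5 : j / p = j' / p := hjj
          have h6 := Nat.div_add_mod j p
          have h7 := Nat.div_add_mod j' p
          rw [h4, h5] at h6
          exact h6.symm.trans h7
    _ = S / p + 1 := card_range _

theorem choose_shift {k : ℕ} (h : Fin k → ℕ) (hadm : ∀ p : ℕ, p.Prime → nu h p < p) (w z S : ℕ)
    (hwz : w ≤ z) (hS : 1 ≤ S) :
    ∃ a : ℕ, (a : ℝ) ≤ ((S : ℝ) + 1) * 4 ^ z ∧ 1 ≤ a ∧ (∀ p : ℕ, p.Prime → p ≤ w → ¬ p ∣ form h a) ∧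
      (∀ p ∈ Ioc w z, p.Prime → p ∣ a) ∧
      (((Ioc z S).filter (fun p => p.Prime ∧ p ∣ form h a)).card : ℝ) ≤ ((k : ℝ) + 1) * (2 + Real.log S) := by
  classical
  have h1 : ∀ p : ℕ, ∃ r : ℕ, p.Prime → (p ≤ w → ¬ p ∣ form h r) ∧ (w < p → r = 0) := by
    intro p
    by_cases hp : p.Prime
    · by_cases hw : p ≤ w
      · have h2 := hadm p hp
        unfold nu at h2
        have h3 : ∃ n ∈ range p, ¬ p ∣ form h n := by
          by_contra hc
          push Not at hc
          rw [filter_true_of_mem hc, card_range] at h2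
          exact lt_irrefl _ h2
        obtain ⟨n, _, hn⟩ := h3
        exact ⟨n, fun _ => ⟨fun _ => hn, fun h => absurd hw (by omega)⟩⟩
      · exact ⟨0, fun _ => ⟨fun h => absurd h hw, fun _ => rfl⟩⟩
    · exact ⟨0, fun h => absurd h hp⟩
  choose r hr using h1
  set T : Finset ℕ := (Icc 1 z).filter Nat.Prime with hT
  have hTp : ∀ p ∈ T, p.Prime := fun p hp => (mem_filter.mp hp).2
  have hpp : Set.Pairwise (T : Set ℕ) (Function.onFun Nat.Coprime fun p => p) := by
    intro p hp q hq hpq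
    exact (Nat.coprime_primes (hTp p (mem_coe.mp hp)) (hTp q (mem_coe.mp hq))).mpr hpq
  have hs : ∀ i ∈ T, (fun p : ℕ => p) i ≠ 0 := fun p hp => (hTp p hp).ne_zero
  obtain ⟨c', hc'⟩ := Nat.chineseRemainderOfFinset r (fun p => p) T hs hpp
  set P := ∏ p ∈ T, p with hP
  have hP4 : P ≤ 4 ^ z := by
    have : P = primorial z := by
      unfold primorial
      rw [hP, hT]
      apply prod_congr _ fun _ _ => rfl
      ext p
      rw [mem_filter, mem_filter, mem_Icc, mem_range]
      constructor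
      · rintro ⟨h1, h2⟩
        exact ⟨by omega, h2⟩
      · rintro ⟨h1, h2⟩
        exact ⟨⟨h2.one_le, by omega⟩, h2⟩
    rw [this]
    exact primorial_le_four_pow z
  have hPpos : 0 < P := prod_pos fun p hp => (hTp p hp).pos
  set c := c' % P with hc
  have hcP : c < P := Nat.mod_lt _ hPpos
  have hcong : ∀ j p : ℕ, p ∈ T → c + P * j ≡ r p [MOD p] := by
    intro j p hp
    have e1 : c + P * j ≡ c' [MOD P] := by
      have e2 : c + P * j ≡ c + 0 [MOD P] := by
        apply Nat.ModEq.add_left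
        exact Nat.modEq_zero_iff_dvd.mpr (dvd_mul_right _ _)
      exact e2.trans (Nat.mod_modEq c' P)
    exact (e1.of_dvd (dvd_prod_of_mem _ hp)).trans (hc' p hp)
  -- the number of the prime factors in `(z, S]` on average
  set G : Finset ℕ := (Ioc z S).filter Nat.Prime with hG
  have hGP : ∀ p ∈ G, ¬ p ∣ P := by
    intro p hp hd
    rw [hG, mem_filter, mem_Ioc] at hp
    rw [hP, (Nat.prime_iff.mp hp.2).dvd_finsetProd_iff] at hd
    obtain ⟨q, hq, hpq⟩ := hd
    have h2 := (Nat.prime_dvd_prime_iff_eq hp.2 (hTp q hq)).mp hpq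
    rw [hT, mem_filter, mem_Icc, ← h2] at hq
    omega
  have hS0 : (0 : ℝ) < S := by exact_mod_cast hS
  have hcount : ∀ p ∈ G, (((Icc 1 S).filter (fun j => p ∣ form h (c + P * j))).card : ℝ) ≤
      ((k : ℝ) + 1) * (S / p + 1) := by
    intro p hp
    have hpp := (mem_filter.mp hp).2
    have hp0 : (0 : ℝ) < p := by exact_mod_cast hpp.pos
    have hsub : (Icc 1 S).filter (fun j => p ∣ form h (c + P * j)) ⊆
        (Icc 1 S).filter (fun j => p ∣ c + P * j) ∪
          univ.biUnion fun i : Fin k => (Icc 1 S).filter (fun j => p ∣ (c + h i) + P * j) := by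
      intro j hj
      rw [mem_filter] at hj
      rcases (form_dvd h hpp _).mp hj.2 with h2 | ⟨i, h2⟩
      · exact mem_union_left _ (mem_filter.mpr ⟨hj.1, h2⟩)
      · refine mem_union_right _ (mem_biUnion.mpr ⟨i, mem_univ _, mem_filter.mpr ⟨hj.1, ?_⟩⟩)
        rw [show c + h i + P * j = c + P * j + h i by ring]
        exact h2
    have h2 : ((Icc 1 S).filter (fun j => p ∣ form h (c + P * j))).card ≤ (k + 1) * (S / p + 1) := by
      calc ((Icc 1 S).filter (fun j => p ∣ form h (c + P * j))).card ≤ _ := card_le_card hsub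
        _ ≤ ((Icc 1 S).filter (fun j => p ∣ c + P * j)).card +
            (univ.biUnion fun i : Fin k => (Icc 1 S).filter (fun j => p ∣ (c + h i) + P * j)).card :=
              card_union_le _ _
        _ ≤ (S / p + 1) + ∑ i : Fin k, (S / p + 1) := by
            apply add_le_add (lin_count hpp (hGP p hp) c S)
            exact card_biUnion_le.trans (sum_le_sum fun i _ => lin_count hpp (hGP p hp) (c + h i) S)
        _ = (k + 1) * (S / p + 1) := by
            rw [sum_const, card_univ, Fintype.card_fin, smul_eq_mul]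
            ring
    have h3 : ((S / p : ℕ) : ℝ) ≤ S / p := Nat.cast_div_le
    calc (((Icc 1 S).filter (fun j => p ∣ form h (c + P * j))).card : ℝ) ≤
        (((k + 1) * (S / p + 1) : ℕ) : ℝ) := by exact_mod_cast h2
      _ = ((k : ℝ) + 1) * (((S / p : ℕ) : ℝ) + 1) := by push_cast; ring
      _ ≤ _ := mul_le_mul_of_nonneg_left (by linarith) (by positivity)
  have hG1 : ∑ p ∈ G, (1 : ℝ) / p ≤ 1 + Real.log S := by
    have hsub : G ⊆ Ioc 0 S := by
      intro p hp
      rw [hG, mem_filter, mem_Ioc] at hp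
      rw [mem_Ioc]
      omega
    refine (sum_le_sum_of_subset_of_nonneg hsub fun _ _ _ => by positivity).trans ?_
    have h3 := harm_le le_rfl hS
    have h4 : Ioc 0 S = insert 1 (Ioc 1 S) := by
      ext x
      simp only [mem_Ioc, mem_insert]
      omega
    rw [h4, sum_insert (by simp)]
    simp only [Nat.cast_one, Real.log_one, sub_zero, div_one] at h3 ⊢
    linarith
  have hGc : (G.card : ℝ) ≤ S := by
    have hsub : G ⊆ Ioc 0 S := by
      intro p hp
      rw [hG, mem_filter, mem_Ioc] at hp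
      rw [mem_Ioc]
      omega
    have := card_le_card hsub
    rw [Nat.card_Ioc, Nat.sub_zero] at this
    exact_mod_cast this
  have htot : ∑ j ∈ Icc 1 S, ((G.filter (fun p => p ∣ form h (c + P * j))).card : ℝ) ≤
      ∑ j ∈ Icc 1 S, ((k : ℝ) + 1) * (2 + Real.log S) := by
    have e1 : ∑ j ∈ Icc 1 S, ((G.filter (fun p => p ∣ form h (c + P * j))).card : ℝ) =
        ∑ p ∈ G, (((Icc 1 S).filter (fun j => p ∣ form h (c + P * j))).card : ℝ) := by
      simp only [card_filter, Nat.cast_sum]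
      rw [sum_comm]
    rw [e1]
    refine (sum_le_sum hcount).trans ?_
    rw [← mul_sum, sum_add_distrib, sum_const, nsmul_eq_mul, mul_one, sum_const, Nat.card_Icc, nsmul_eq_mul]
    have e2 : ∑ p ∈ G, (S : ℝ) / p = S * ∑ p ∈ G, (1 : ℝ) / p := by
      rw [mul_sum]
      refine sum_congr rfl fun p _ => ?_
      ring
    rw [e2]
    have e3 : (S : ℝ) * ∑ p ∈ G, (1 : ℝ) / p ≤ S * (1 + Real.log S) := mul_le_mul_of_nonneg_left hG1 hS0.le
    have e4 : ((S + 1 - 1 : ℕ) : ℝ) = S := by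
      rw [Nat.add_sub_cancel]
    rw [e4]
    calc ((k : ℝ) + 1) * (S * ∑ p ∈ G, (1 : ℝ) / p + G.card) ≤ ((k : ℝ) + 1) * (S * (1 + Real.log S) + S) :=
          mul_le_mul_of_nonneg_left (by linarith) (by positivity)
      _ = _ := by ring
  obtain ⟨j, hj, hjb⟩ := exists_le_of_sum_le (nonempty_Icc.mpr hS) htot
  rw [mem_Icc] at hj
  refine ⟨c + P * j, ?_, ?_, ?_, ?_, ?_⟩
  · have h2 : c + P * j ≤ (S + 1) * 4 ^ z := by
      calc c + P * j ≤ P + P * S := add_le_add hcP.le (Nat.mul_le_mul_left _ hj.2)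
        _ = (S + 1) * P := by ring
        _ ≤ _ := Nat.mul_le_mul_left _ hP4
    exact_mod_cast h2
  · have : 1 ≤ P * j := Nat.mul_pos hPpos hj.1
    omega
  · intro p hp hpw hd
    have hpT : p ∈ T := mem_filter.mpr ⟨mem_Icc.mpr ⟨hp.one_le, hpw.trans hwz⟩, hp⟩
    have h2 := form_congr h (hcong j p hpT)
    have h3 : p ∣ form h (r p) := (h2.dvd_iff (dvd_refl p)).mp hd
    exact (hr p hp).1 hpw h3
  · intro p hp hpp'
    rw [mem_Ioc] at hp
    have hpT : p ∈ T := mem_filter.mpr ⟨mem_Icc.mpr ⟨hpp'.one_le, hp.2⟩, hpp'⟩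
    have h2 := hcong j p hpT
    rw [(hr p hpp').2 hp.1] at h2
    exact Nat.modEq_zero_iff_dvd.mp h2
  · refine le_trans (le_of_eq ?_) hjb
    congr 2
    rw [hG, filter_filter]

end Pool.Agent.H537.FT
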