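import Pool.Agent.H537.FT.FinT
import Pool.Graph.R_seed8.W93.PP5
import Pool.Graph.R_seed8.Results.MP_92ef0c_nt.EveryModulusOfDifferences

/-! Prime pairs: the logarithmic integral, and one parity. -/

set_option autoImplicit false
set_option maxHeartbeats 4000000

open Finset Filter

namespace Pool.Agent.H537.FT

open Pool.Agent.W93.PP Pool.Agent.H560R3.GB
open Pool.Agent.Results.MP_92ef0c_nt.EveryModulusOfDifferences (pairs main Holds)

theorem int_le {s t : ℝ} (hs : 2 ≤ s) (hst : s ≤ t) :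
    ∫ u in s..t, 1 / Real.log u ^ 2 ≤ (t - s) * (1 / Real.log s ^ 2) := by
  have h1 : ∫ u in s..t, 1 / Real.log u ^ 2 ≤ ∫ _u in s..t, 1 / Real.log s ^ 2 := by
    apply intervalIntegral.integral_mono_on hst (intble s t hs (hs.trans hst)) intervalIntegrable_const
    intro u hu
    exact anti (Set.mem_Ici.mpr hs) (Set.mem_Ici.mpr (hs.trans hu.1)) hu.1
  refine h1.trans (le_of_eq ?_)
  rw [intervalIntegral.integral_const, smul_eq_mul]

theorem int_ge {s t : ℝ} (hs : 2 ≤ s) (hst : s ≤ t) :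
    (t - s) * (1 / Real.log t ^ 2) ≤ ∫ u in s..t, 1 / Real.log u ^ 2 := by
  have h1 : ∫ _u in s..t, 1 / Real.log t ^ 2 ≤ ∫ u in s..t, 1 / Real.log u ^ 2 := by
    apply intervalIntegral.integral_mono_on hst intervalIntegrable_const (intble s t hs (hs.trans hst))
    intro u hu
    exact anti (Set.mem_Ici.mpr (hs.trans hu.1)) (Set.mem_Ici.mpr (hs.trans hst)) hu.2
  refine le_trans (le_of_eq ?_) h1
  rw [intervalIntegral.integral_const, smul_eq_mul]

theorem Li2_near (B η : ℝ) (hB : 0 < B) (hη : 0 < η) :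
    ∀ᶠ N : ℕ in atTop, ∀ d y : ℕ, (d : ℝ) ≤ (N : ℝ) / Real.log N ^ (B + 2) →
      (N : ℝ) / Real.log N ^ (B + 1) ≤ y → y + d ≤ N →
      |Li2 ((y : ℝ) + d) - 1 / Real.log N ^ 2 * y| ≤ η * (1 / Real.log N ^ 2 * y) := by
  have hlogX : Tendsto (fun X : ℕ => Real.log (X : ℝ)) atTop atTop :=
    Real.tendsto_log_atTop.comp tendsto_natCast_atTop_atTop
  set δ : ℝ := min (1 / 4) (η / 8) with hδ
  have hδ0 : 0 < δ := lt_min (by norm_num) (by positivity)
  have hδ1 : δ ≤ 1 / 4 := min_le_left _ _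
  have hδ2 : δ ≤ η / 8 := min_le_right _ _
  have t2 : ∀ᶠ L : ℝ in atTop, Real.log L ≤ δ / (B + 4) * L := by
    have h1 := Real.isLittleO_log_id_atTop.bound (c := δ / (B + 4)) (by positivity)
    filter_upwards [h1, eventually_ge_atTop (1 : ℝ)] with L h2 h3
    rw [id, Real.norm_of_nonneg (Real.log_nonneg h3), Real.norm_of_nonneg (by linarith)] at h2
    exact h2
  filter_upwards [hlogX.eventually t2, hlogX.eventually_ge_atTop (10 / η + 8 / η + 8), eventually_ge_atTop 3]
    with N h1 h2 hN3 d y hd hy hyd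
  set L := Real.log (N : ℝ) with hL
  have hN0 : (0 : ℝ) < N := by
    have : 0 < N := by omega
    exact_mod_cast this
  have hp1 : 0 < 10 / η := by positivity
  have hp2 : 0 < 8 / η := by positivity
  have hp3 : 8 / η = 2 * (4 / η) := by ring
  have hL4 : 4 ≤ L := by linarith
  have hL0 : 0 < L := by linarith
  have hNexp : (N : ℝ) = Real.exp L := by rw [hL, Real.exp_log hN0]
  -- the small power
  have hLp : L ^ (B + 4) ≤ Real.exp (δ * L) := by
    rw [← Real.log_le_iff_le_exp (by positivity), Real.log_rpow hL0]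
    calc (B + 4) * Real.log L ≤ (B + 4) * (δ / (B + 4) * L) := mul_le_mul_of_nonneg_left h1 (by linarith)
      _ = δ * L := by field_simp
  set Y0 : ℝ := N / L ^ (B + 4) with hY0
  have hLp0 : 0 < L ^ (B + 4) := Real.rpow_pos_of_pos hL0 _
  have hY0low : Real.exp ((1 - δ) * L) ≤ Y0 := by
    rw [hY0, le_div_iff₀ hLp0]
    calc Real.exp ((1 - δ) * L) * L ^ (B + 4) ≤ Real.exp ((1 - δ) * L) * Real.exp (δ * L) :=
          mul_le_mul_of_nonneg_left hLp (Real.exp_pos _).le
      _ = N := by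
          rw [← Real.exp_add, hNexp]
          congr 1
          ring
  have hY0big : 4 / η + 2 ≤ Y0 := by
    refine le_trans ?_ hY0low
    have e1 : L / 2 + 1 ≤ Real.exp ((1 - δ) * L) := by
      have e2 := Real.add_one_le_exp ((1 - δ) * L)
      have e3 : L / 2 ≤ (1 - δ) * L := by
        have : (1 / 2) * L ≤ (1 - δ) * L := mul_le_mul_of_nonneg_right (by linarith) hL0.le
        linarith
      linarith
    linarith
  have hY02 : 2 ≤ Y0 := by linarith
  have hlogY0 : (1 - δ) * L ≤ Real.log Y0 := by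
    rw [Real.le_log_iff_exp_le (by linarith)]
    exact hY0low
  have hy0 : (0 : ℝ) ≤ y := Nat.cast_nonneg _
  have hd0 : (0 : ℝ) ≤ d := Nat.cast_nonneg _
  have hydN : (y : ℝ) + d ≤ N := by exact_mod_cast hyd
  have hL1' : L ^ (B + 2) = L ^ (B + 1) * L := by
    rw [← Real.rpow_add_one hL0.ne']
    congr 1
    ring
  have hL3' : L ^ (B + 4) = L ^ (B + 1) * L ^ 3 := by
    rw [← Real.rpow_natCast L 3, ← Real.rpow_add hL0]
    congr 1
    push_cast
    ring
  have hdy : (d : ℝ) ≤ y / L := by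
    refine hd.trans ?_
    rw [hL1', ← div_div]
    exact div_le_div_of_nonneg_right hy hL0.le
  have hY0y : Y0 ≤ y / L ^ 3 := by
    rw [hY0, hL3', ← div_div]
    exact div_le_div_of_nonneg_right hy (by positivity)
  have hL3 : 1 ≤ L ^ 3 := one_le_pow₀ (by linarith)
  have hY0y' : Y0 ≤ y := hY0y.trans (div_le_self hy0 hL3)
  have hYd : Y0 ≤ (y : ℝ) + d := by linarith
  have hY2 : 2 ≤ (y : ℝ) + d := by linarith
  have hy2 : 4 / η ≤ y := by linarith
  set Y : ℝ := (y : ℝ) + d with hY
  have hup : Li2 Y ≤ (1 + η) * (1 / L ^ 2 * y) := by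
    have e1 : Li2 Y = (∫ u in (2 : ℝ)..Y0, 1 / Real.log u ^ 2) + ∫ u in Y0..Y, 1 / Real.log u ^ 2 := by
      unfold Li2
      rw [intervalIntegral.integral_add_adjacent_intervals (intble 2 Y0 le_rfl hY02)
        (intble Y0 Y hY02 hY2)]
    have e2 := int_le le_rfl hY02
    have e3 := int_le hY02 hYd
    have e4 : (Y0 - 2) * (1 / Real.log 2 ^ 2) ≤ Y0 * 3 :=
      mul_le_mul (by linarith) log_two_sq (by positivity) (by linarith)
    have hlY0 : 0 < (1 - δ) * L := mul_pos (by linarith) hL0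
    have e5 : 1 / Real.log Y0 ^ 2 ≤ (1 + 4 * δ) / L ^ 2 := by
      have e6 : ((1 - δ) * L) ^ 2 ≤ Real.log Y0 ^ 2 := pow_le_pow_left₀ hlY0.le hlogY0 2
      calc 1 / Real.log Y0 ^ 2 ≤ 1 / ((1 - δ) * L) ^ 2 := one_div_le_one_div_of_le (by positivity) e6
        _ ≤ (1 + 4 * δ) / L ^ 2 := by
            rw [div_le_div_iff₀ (by positivity) (by positivity), mul_pow]
            have e7 : 1 ≤ (1 + 4 * δ) * (1 - δ) ^ 2 := by
              have : (1 + 4 * δ) * (1 - δ) ^ 2 - 1 = δ * (2 - 7 * δ + 4 * δ ^ 2) := by ring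
              have h8 : 0 ≤ δ * (2 - 7 * δ + 4 * δ ^ 2) := by
                apply mul_nonneg hδ0.le
                nlinarith [sq_nonneg δ]
              linarith
            have e8 : 0 < L ^ 2 := by positivity
            calc 1 * L ^ 2 ≤ ((1 + 4 * δ) * (1 - δ) ^ 2) * L ^ 2 := mul_le_mul_of_nonneg_right e7 e8.le
              _ = _ := by ring
    have e6 : (Y - Y0) * (1 / Real.log Y0 ^ 2) ≤ Y * ((1 + 4 * δ) / L ^ 2) :=
      mul_le_mul (by linarith) e5 (by positivity) (by linarith)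
    have e7 : Y0 * 3 ≤ 3 / L * (1 / L ^ 2 * y) := by
      calc Y0 * 3 ≤ y / L ^ 3 * 3 := mul_le_mul_of_nonneg_right hY0y (by norm_num)
        _ = _ := by
            field_simp
    have e8 : Y * ((1 + 4 * δ) / L ^ 2) ≤ (1 + 4 * δ + 2 / L) * (1 / L ^ 2 * y) := by
      have e9 : Y ≤ (1 + 1 / L) * y := by
        rw [hY]
        have : (1 + 1 / L) * (y : ℝ) = y + y / L := by ring
        linarith
      calc Y * ((1 + 4 * δ) / L ^ 2) ≤ ((1 + 1 / L) * y) * ((1 + 4 * δ) / L ^ 2) :=
            mul_le_mul_of_nonneg_right e9 (by positivity)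
        _ = ((1 + 4 * δ) + (1 + 4 * δ) * (1 / L)) * (1 / L ^ 2 * y) := by ring
        _ ≤ (1 + 4 * δ + 2 / L) * (1 / L ^ 2 * y) := by
            apply mul_le_mul_of_nonneg_right _ (by positivity)
            have : (1 + 4 * δ) * (1 / L) ≤ 2 * (1 / L) := mul_le_mul_of_nonneg_right (by linarith) (by positivity)
            have e10 : 2 / L = 2 * (1 / L) := by ring
            linarith
    have e9 : 3 / L + (1 + 4 * δ + 2 / L) ≤ 1 + η := by
      have e10 : 5 / L ≤ η / 2 := by
        rw [div_le_div_iff₀ hL0 (by norm_num)]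
        have : 10 / η ≤ L := by linarith
        rw [div_le_iff₀ hη] at this
        linarith
      have e11 : 3 / L + 2 / L = 5 / L := by ring
      linarith
    have e10 : 0 ≤ 1 / L ^ 2 * (y : ℝ) := by positivity
    calc Li2 Y ≤ 3 / L * (1 / L ^ 2 * y) + (1 + 4 * δ + 2 / L) * (1 / L ^ 2 * y) := by linarith
      _ = (3 / L + (1 + 4 * δ + 2 / L)) * (1 / L ^ 2 * y) := by ring
      _ ≤ _ := mul_le_mul_of_nonneg_right e9 e10
  have hlow : (1 - η) * (1 / L ^ 2 * y) ≤ Li2 Y := by
    have e1 := int_ge le_rfl hY2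
    have hlY : 0 < Real.log Y := Real.log_pos (by linarith)
    have e2 : 1 / L ^ 2 ≤ 1 / Real.log Y ^ 2 := by
      apply one_div_le_one_div_of_le (by positivity)
      apply pow_le_pow_left₀ hlY.le
      rw [hL]
      exact Real.log_le_log (by linarith) hydN
    have e3 : (Y - 2) * (1 / L ^ 2) ≤ (Y - 2) * (1 / Real.log Y ^ 2) :=
      mul_le_mul_of_nonneg_left e2 (by linarith)
    have e4 : (1 - η) * (y : ℝ) ≤ Y - 2 := by
      rw [div_le_iff₀ hη] at hy2
      rw [hY]
      linarith
    have e5 : (1 - η) * (1 / L ^ 2 * (y : ℝ)) ≤ (Y - 2) * (1 / L ^ 2) := by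
      calc (1 - η) * (1 / L ^ 2 * (y : ℝ)) = ((1 - η) * y) * (1 / L ^ 2) := by ring
        _ ≤ _ := mul_le_mul_of_nonneg_right e4 (by positivity)
    unfold Li2
    linarith
  rw [abs_le]
  constructor <;> linarith

/-- the constant of the main term -/
noncomputable def cst (d : ℕ) : ℝ :=
  2 * (∏ p ∈ d.primeFactors.filter (fun p => 2 < p), ((p : ℝ) - 1) / ((p : ℝ) - 2)) * C₂

theorem cst_ge (d : ℕ) : 1 ≤ cst d := by
  unfold cst
  have h1 : 1 ≤ ∏ p ∈ d.primeFactors.filter (fun p => 2 < p), ((p : ℝ) - 1) / ((p : ℝ) - 2) := by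
    apply one_le_prod
    intro p hp
    rw [mem_filter] at hp
    have h2 : (2 : ℝ) < p := by exact_mod_cast hp.2
    rw [one_le_div (by linarith)]
    linarith
  have h2 := Pool.Agent.W93.GB.C2_half
  nlinarith

theorem form_one (d a : ℕ) : form (fun _ : Fin 1 => d) a = a * (a + d) := by
  unfold form
  simp

theorem main_eq (d : ℕ) (y : ℝ) (q : ℕ) :
    main d y q = cst d * (1 / (phi (fun _ : Fin 1 => d) q : ℝ)) * Li2 y := by
  unfold main cst Li2 phi
  have h1 : ((range q).filter (fun α => Nat.Coprime α q ∧ Nat.Coprime (α + d) q)) =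
      ((range q).filter (fun r => (form (fun _ : Fin 1 => d) r).Coprime q)) := by
    apply filter_congr
    intro r _
    rw [form_one, Nat.coprime_mul_iff_left]
  rw [h1]
  ring

open Classical in
/-- the indicator function of the smaller members of the pairs -/
noncomputable def Wd (d n : ℕ) : ℝ := if n.Prime ∧ (n + d).Prime then 1 else 0

theorem pairs_eq (d y a q : ℕ) : (pairs d ((y : ℝ) + d) a q : ℝ) = cntW (Wd d) y a q := by
  classical
  unfold pairs cntW Wd
  rw [← sum_filter, filter_filter, sum_const, nsmul_eq_mul, mul_one]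
  congr 2
  ext p
  rw [mem_filter, mem_filter, mem_range, mem_Icc]
  have h0 : ⌊(y : ℝ) + d⌋₊ = y + d := by
    have : (y : ℝ) + d = ((y + d : ℕ) : ℝ) := by push_cast; ring
    rw [this, Nat.floor_natCast]
  rw [h0]
  constructor
  · rintro ⟨h1, h2, h3, h4, h5⟩
    have h6 : p + d ≤ y + d := by exact_mod_cast h4
    exact ⟨⟨h2.one_le, by omega⟩, h5, h2, h3⟩
  · rintro ⟨⟨h1, h2⟩, h3, h4, h5⟩
    refine ⟨by omega, h4, h5, ?_, h3⟩
    have : p + d ≤ y + d := by omega
    exact_mod_cast this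

theorem nu_pair {d : ℕ} (hd : Even d) {p : ℕ} (hp : p.Prime) : nu (fun _ : Fin 1 => d) p < p := by
  have h1 := nu_le (fun _ : Fin 1 => d) hp
  rcases Nat.lt_or_ge 2 p with h2 | h2
  · omega
  · have h3 : p = 2 := le_antisymm h2 hp.two_le
    subst h3
    unfold nu
    have h4 : (range 2).filter (fun r => 2 ∣ form (fun _ : Fin 1 => d) r) ⊆ {0} := by
      intro r hr
      rw [mem_filter, mem_range, form_one] at hr
      rw [mem_singleton]
      by_contra hc
      have h5 : r = 1 := by omega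
      rw [h5, one_mul] at hr
      obtain ⟨c, hc⟩ := hd
      omega
    have h5 := card_le_card h4
    rw [card_singleton] at h5
    omega

/-- the moduli -/
noncomputable def modd (B : ℝ) (X d a : ℕ) : Finset ℕ :=
  (Ioc ⌊(X : ℝ) / Real.log X ^ B⌋₊ (2 * ⌊(X : ℝ) / Real.log X ^ B⌋₊)).filter
    (fun q => Nat.Coprime a q ∧ Nat.Coprime (a + d) q)

theorem pair_parity (B : ℝ) (hB : 0 < B) (ε : ℝ) (hε : 0 < ε) (K : ℕ) (hK2 : 2 ≤ K) (hBK : B < K) :
    ∃ η₀ : ℝ, 0 < η₀ ∧ ∀ F G : ℕ, B + 1 ≤ F → 2 * B + 5 ≤ G →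
      ∀ η : ℝ, 0 < η → η ≤ η₀ → ∀ᶠ X : ℕ in atTop, ∀ d : ℕ, Even d →
      (d : ℝ) ≤ (X : ℝ) / Real.log X ^ (B + 2) → Holds F G X d →
      ∃ a : ℕ, 1 ≤ a ∧ (a : ℝ) ≤ (X : ℝ) ^ ε ∧ 0 < ∑ q ∈ modd B X d a, main d X q ∧
        η * ∑ q ∈ modd B X d a, main d X q ≤
          (-1) ^ K * (∑ q ∈ modd B X d a, (pairs d X a q : ℝ) - ∑ q ∈ modd B X d a, main d X q) := by
  obtain ⟨η₀, hη₀, hpar⟩ := parityT 1 1 le_rfl B hB ε hε K hK2 hBK
  refine ⟨min η₀ (1 / 2), lt_min hη₀ (by norm_num), fun F G hF hG η hη hηle => ?_⟩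
  have hη2 : η ≤ 1 / 2 := hηle.trans (min_le_right _ _)
  have hlogX : Tendsto (fun X : ℕ => Real.log (X : ℝ)) atTop atTop :=
    Real.tendsto_log_atTop.comp tendsto_natCast_atTop_atTop
  filter_upwards [hpar η hη (hηle.trans (min_le_left _ _)), Li2_near B η hB hη,
    hlogX.eventually_ge_atTop (2 / η + 2), eventually_ge_atTop 3] with N h1 h2 h3 hN3 d hdE hd hH
  set L := Real.log (N : ℝ) with hL
  have hN0 : (0 : ℝ) < N := by
    have : 0 < N := by omega
    exact_mod_cast this
  have hN1 : (1 : ℝ) ≤ N := by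
    have : 1 ≤ N := by omega
    exact_mod_cast this
  have hp1 : 0 < 2 / η := by positivity
  have hL2 : 2 ≤ L := by linarith
  have hL0 : 0 < L := by linarith
  have hL1 : 1 ≤ L := by linarith
  have hd0 : (0 : ℝ) ≤ d := Nat.cast_nonneg _
  have hd2 : (d : ℝ) ≤ N / 2 := by
    refine hd.trans ?_
    apply div_le_div_of_nonneg_left hN0.le (by norm_num)
    calc (2 : ℝ) ≤ L := hL2
      _ = L ^ (1 : ℝ) := (Real.rpow_one _).symm
      _ ≤ L ^ (B + 2) := Real.rpow_le_rpow_of_exponent_le hL1 (by linarith)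
  have hdN : d ≤ N := by
    have : (d : ℝ) ≤ N := by linarith
    exact_mod_cast this
  have hXd : ((N - d : ℕ) : ℝ) = N - d := by
    push_cast [hdN]
    ring
  have hlam : 0 < 1 / L ^ 2 := by positivity
  have hcst := cst_ge d
  have key := h1 (fun _ : Fin 1 => d) (N - d) (Wd d) (fun y : ℕ => Li2 ((y : ℝ) + d)) (1 / L ^ 2) (cst d)
    (fun _ => by
      rw [Real.rpow_one]
      exact_mod_cast hdN) (fun p hp => nu_pair hdE hp) (by rw [hXd]; linarith) (Nat.sub_le _ _) hlam
    (by linarith) (by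
      intro n hn
      unfold Wd at hn
      split_ifs at hn with hc
      · exact ⟨hc.1, fun _ => hc.2⟩
      · exact absurd rfl hn)
    (fun y hy1 hy2 => h2 d y hd hy1 (by omega))
    (by
      intro q a y hq hqL hco hy1 hy2
      have hyd : y + d ≤ N := by omega
      rw [form_one, Nat.coprime_mul_iff_left] at hco
      have hLi := h2 d y hd hy1 hyd
      have hLB1 : 0 < L ^ (B + 1) := Real.rpow_pos_of_pos hL0 _
      have hy0 : (0 : ℝ) < y := lt_of_lt_of_le (by positivity) hy1
      have hqF : (q : ℝ) ≤ L ^ F := by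
        refine hqL.trans ?_
        rw [← Real.rpow_natCast]
        exact Real.rpow_le_rpow_of_exponent_le hL1 hF
      have hY2 : 2 ≤ (y : ℝ) + d := by
        -- `y` is large
        have e1 : (2 : ℝ) ≤ y := by
          by_contra hc
          push Not at hc
          have e2 : (y : ℝ) ≤ 1 := by
            have : y < 2 := by exact_mod_cast hc
            have : y ≤ 1 := by omega
            exact_mod_cast this
          have e3 := (abs_le.mp hLi).1
          have e4 : Li2 ((y : ℝ) + d) ≤ 0 ∨ 2 ≤ (y : ℝ) + d := by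
            rcases le_total ((y : ℝ) + d) 2 with h5 | h5
            · left
              unfold Li2
              rw [intervalIntegral.integral_symm]
              have : 0 ≤ ∫ t in ((y : ℝ) + d)..2, 1 / Real.log t ^ 2 := by
                apply intervalIntegral.integral_nonneg h5
                intro u _
                positivity
              linarith
            · right
              exact h5
          rcases e4 with e4 | e4
          · have e5 : 0 < 1 / L ^ 2 * (y : ℝ) := by positivity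
            nlinarith
          · -- then `d ≥ 1`, but `d ≤ y / L`
            have e6 : (d : ℝ) ≤ y / L := by
              refine hd.trans ?_
              have hL1' : L ^ (B + 2) = L ^ (B + 1) * L := by
                rw [← Real.rpow_add_one hL0.ne']
                congr 1
                ring
              rw [hL1', ← div_div]
              exact div_le_div_of_nonneg_right hy1 hL0.le
            have e7 : (y : ℝ) / L ≤ 1 / 2 := by
              rw [div_le_div_iff₀ hL0 (by norm_num)]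
              linarith
            linarith
        linarith
      have hHd := hH q a hq hqF hco.1 hco.2 ((y : ℝ) + d) hY2 (by exact_mod_cast hyd)
      rw [pairs_eq, main_eq] at hHd
      refine hHd.trans ?_
      -- the main term is large
      have hq0 : (0 : ℝ) < q := by exact_mod_cast hq
      have hphi : (phi (fun _ : Fin 1 => d) q : ℝ) ≤ q := by
        have : phi (fun _ : Fin 1 => d) q ≤ q := by
          unfold phi
          exact (card_filter_le _ _).trans (by rw [card_range])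
        exact_mod_cast this
      have hphi0 : (0 : ℝ) < phi (fun _ : Fin 1 => d) q := by
        have : 0 < phi (fun _ : Fin 1 => d) q := by
          unfold phi
          rw [card_pos]
          refine ⟨a % q, mem_filter.mpr ⟨mem_range.mpr (Nat.mod_lt _ hq), ?_⟩⟩
          have e1 : form (fun _ : Fin 1 => d) (a % q) ≡ form (fun _ : Fin 1 => d) a [MOD q] :=
            form_congr _ (Nat.mod_modEq a q)
          have e2 : Nat.gcd (form (fun _ : Fin 1 => d) (a % q)) q = Nat.gcd (form (fun _ : Fin 1 => d) a) q :=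
            Nat.ModEq.gcd_eq e1
          unfold Nat.Coprime
          rw [e2, form_one]
          exact Nat.coprime_mul_iff_left.mpr hco
        exact_mod_cast this
      have hinv : 1 / L ^ (B + 1) ≤ 1 / (phi (fun _ : Fin 1 => d) q : ℝ) :=
        one_div_le_one_div_of_le hphi0 (hphi.trans hqL)
      have hI : 1 / 2 * (1 / L ^ 2 * (N / L ^ (B + 1))) ≤ Li2 ((y : ℝ) + d) := by
        have e1 := (abs_le.mp hLi).1
        have e2 : 1 / L ^ 2 * (N / L ^ (B + 1)) ≤ 1 / L ^ 2 * y := mul_le_mul_of_nonneg_left hy1 hlam.le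
        have e3 : η * (1 / L ^ 2 * (y : ℝ)) ≤ 1 / 2 * (1 / L ^ 2 * y) :=
          mul_le_mul_of_nonneg_right hη2 (by positivity)
        linarith
      have hmain : 1 * (1 / L ^ (B + 1)) * (1 / 2 * (1 / L ^ 2 * (N / L ^ (B + 1)))) ≤
          cst d * (1 / (phi (fun _ : Fin 1 => d) q : ℝ)) * Li2 ((y : ℝ) + d) := by
        apply mul_le_mul _ hI (by positivity) (by positivity)
        exact mul_le_mul hcst hinv (by positivity) (by linarith)
      have hLG : L ^ (2 * B + 5) ≤ L ^ G := by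
        rw [← Real.rpow_natCast L G]
        exact Real.rpow_le_rpow_of_exponent_le hL1 hG
      have hsplit : L ^ (2 * B + 5) = L ^ (B + 1) * L ^ (B + 1) * L ^ 2 * L := by
        rw [show 2 * B + 5 = (B + 1) + (B + 1) + 2 + 1 by ring, Real.rpow_add_one hL0.ne',
          Real.rpow_add hL0, Real.rpow_add hL0]
        norm_num
      calc (N : ℝ) / L ^ G ≤ N / L ^ (2 * B + 5) :=
            div_le_div_of_nonneg_left hN0.le (by positivity) hLG
        _ ≤ η * (1 * (1 / L ^ (B + 1)) * (1 / 2 * (1 / L ^ 2 * (N / L ^ (B + 1))))) := by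
            rw [hsplit]
            have e1 : η * (1 * (1 / L ^ (B + 1)) * (1 / 2 * (1 / L ^ 2 * (N / L ^ (B + 1))))) =
                N / (L ^ (B + 1) * L ^ (B + 1) * L ^ 2 * (2 / η)) := by
              field_simp
            rw [e1]
            apply div_le_div_of_nonneg_left hN0.le (by positivity)
            apply mul_le_mul_of_nonneg_left (by linarith) (by positivity)
        _ ≤ _ := mul_le_mul_of_nonneg_left hmain hη.le)
  obtain ⟨a, ha1, ha2, ha4, hQ, ha3⟩ := key
  have hfil : (Ioc ⌊(N : ℝ) / L ^ B⌋₊ (2 * ⌊(N : ℝ) / L ^ B⌋₊)).filter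
      (fun q : ℕ => (form (fun _ : Fin 1 => d) a).Coprime q) = modd B N d a := by
    unfold modd
    apply filter_congr
    intro q _
    rw [form_one, Nat.coprime_mul_iff_left]
  rw [hfil] at ha3
  have hND : ((N - d : ℕ) : ℝ) + d = N := by rw [hXd]; ring
  have e1 : ∀ q, cst d * (1 / (phi (fun _ : Fin 1 => d) q : ℝ)) * Li2 (((N - d : ℕ) : ℝ) + d) = main d N q := by
    intro q
    rw [hND, main_eq]
  have e2 : ∀ q, cntW (Wd d) (N - d) a q = (pairs d N a q : ℝ) := by
    intro q
    rw [← pairs_eq, hND]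
  simp only [e1, e2] at ha3
  refine ⟨a, ha1, ha2, ?_, ha3⟩
  -- the sum is positive
  have hLi : 0 < Li2 (N : ℝ) := by
    have e3 : (N : ℝ) / L ^ (B + 1) ≤ ((N - d : ℕ) : ℝ) := by
      rw [hXd]
      have e4 : (N : ℝ) / L ^ (B + 1) ≤ N / 2 := by
        apply div_le_div_of_nonneg_left hN0.le (by norm_num)
        calc (2 : ℝ) ≤ L := hL2
          _ = L ^ (1 : ℝ) := (Real.rpow_one _).symm
          _ ≤ L ^ (B + 1) := Real.rpow_le_rpow_of_exponent_le hL1 (by linarith)
      linarith
    have e5 := h2 d (N - d) hd e3 (by omega)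
    rw [hND] at e5
    have e6 := (abs_le.mp e5).1
    have e7 : η * (1 / L ^ 2 * ((N - d : ℕ) : ℝ)) ≤ 1 / 2 * (1 / L ^ 2 * ((N - d : ℕ) : ℝ)) :=
      mul_le_mul_of_nonneg_right hη2 (by positivity)
    have e8 : 0 < 1 / L ^ 2 * ((N - d : ℕ) : ℝ) := by
      apply mul_pos hlam
      rw [hXd]
      linarith
    linarith
  set Q := ⌊(N : ℝ) / L ^ B⌋₊ with hQd
  obtain ⟨j, hj1, hj2⟩ : ∃ j : ℕ, Q < 2 ^ j ∧ 2 ^ j ≤ 2 * Q := by
    refine ⟨Nat.log 2 Q + 1, Nat.lt_pow_succ_log_self (by norm_num) Q, ?_⟩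
    rw [pow_succ]
    have := Nat.pow_log_le_self 2 (by omega : Q ≠ 0)
    omega
  have hcop : (a * (a + d)).Coprime (2 ^ j) := by
    apply Nat.Coprime.pow_right
    rw [Nat.coprime_comm, Nat.Prime.coprime_iff_not_dvd Nat.prime_two, ← form_one]
    exact ha4
  refine sum_pos (fun q hq => ?_) ⟨2 ^ j, mem_filter.mpr ⟨mem_Ioc.mpr ⟨hj1, hj2⟩,
    Nat.coprime_mul_iff_left.mp hcop⟩⟩
  unfold modd at hq
  rw [mem_filter, mem_Ioc] at hq
  rw [main_eq]
  have hphi0 : (0 : ℝ) < phi (fun _ : Fin 1 => d) q := by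
    have : 0 < phi (fun _ : Fin 1 => d) q := by
      unfold phi
      rw [card_pos]
      refine ⟨a % q, mem_filter.mpr ⟨mem_range.mpr (Nat.mod_lt _ (by omega)), ?_⟩⟩
      have e1 : form (fun _ : Fin 1 => d) (a % q) ≡ form (fun _ : Fin 1 => d) a [MOD q] :=
        form_congr _ (Nat.mod_modEq a q)
      have e2 : Nat.gcd (form (fun _ : Fin 1 => d) (a % q)) q = Nat.gcd (form (fun _ : Fin 1 => d) a) q :=
        Nat.ModEq.gcd_eq e1
      unfold Nat.Coprime
      rw [e2, form_one]
      exact Nat.coprime_mul_iff_left.mpr hq.2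
    exact_mod_cast this
  have : 0 < cst d := by linarith
  positivity

end Pool.Agent.H537.FT
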